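import Pool.Agent.W_d33b62_h49.Tangents

/-!
# Integral primitive packings: the integral form of a circle of prime curvature
-/

namespace Pool.Agent.Wd33b62g

/-- All curvatures of the configuration are integral multiples of `a`. -/
def DvC (a : ℝ) (D : Fin 4 → Circ) : Prop := ∀ j, ∃ n : ℤ, (D j).curv = a * n

theorem intForm_step {a : ℝ} {D D' : Fin 4 → Circ} (h : Tan4 D) (h' : Tan4 D') (i : Fin 4)
    (hj : ∀ j, j ≠ i → D' j = D j) (hne : D' i ≠ D i) (hd : DvC a D) : DvC a D' := by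
  intro j
  by_cases hji : j = i
  · subst hji
    rw [swapB_unique D D' h h' j hj hne]
    choose n hn using hd
    refine ⟨2 * (∑ k, n k) - 3 * n j, ?_⟩
    rw [Finset.sum_congr rfl (fun k _ => hn k), ← Finset.mul_sum, hn j]
    push_cast
    ring
  · rw [hj j hji]; exact hd j

theorem intForm_iff {a : ℝ} {D₀ D : Fin 4 → Circ} (h₀ : IsDescartes D₀) (h : Gen D₀ D) :
    DvC a D ↔ DvC a D₀ := by
  induction h with
  | base => exact Iff.rfl
  | step i hg h' hj hne ih =>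
    rw [← ih]
    constructor
    · exact intForm_step h'.tan4 (hg.isDescartes h₀).tan4 i (fun j hji => (hj j hji).symm)
        hne.symm
    · exact intForm_step (hg.isDescartes h₀).tan4 h'.tan4 i hj hne

theorem intForm_prim {D₀ D : Fin 4 → Circ} (h₀ : IsDescartes D₀)
    (hprim : IsPrimitive (packing D₀)) (h : Gen D₀ D) (a : ℕ) (hd : DvC a D) : a = 1 := by
  apply hprim
  rintro C ⟨D', hg, i, rfl⟩
  have h1 := (intForm_iff (a := (a : ℝ)) h₀ hg).2 ((intForm_iff h₀ h).1 hd)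
  exact h1 i

/-- The integral form attached to a circle of odd prime curvature. -/
theorem intForm_exists {D₀ : Fin 4 → Circ} (h₀ : IsDescartes D₀)
    (hint : IsIntegral (packing D₀)) (hprim : IsPrimitive (packing D₀)) {C : Circ}
    (hC : C ∈ packing D₀) (a : ℕ) (ha : a.Prime) (ha2 : a ≠ 2) (hCa : C.curv = a) :
    ∃ A B E : ℤ, 0 < A ∧ 0 < E ∧ A * E - B ^ 2 = (a : ℤ) ^ 2 ∧
      ¬ ((a : ℤ) ∣ A ∧ (a : ℤ) ∣ E) ∧ ∀ x y : ℤ, IsCoprime x y →
        ∃ C', Nbr D₀ C C' ∧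
          C'.curv = ((A * x ^ 2 + 2 * B * x * y + E * y ^ 2 - (a : ℤ) : ℤ) : ℝ) := by
  obtain ⟨D, hg, i, rfl⟩ := hC
  obtain ⟨σ, hσ⟩ := swapB_perm i
  have hdes := hg.isDescartes h₀
  have ht := hdes.tan4
  have hpos := swap_pos_of_disjoint hdes
  obtain ⟨b, hb⟩ := hint (D (σ 1)) ⟨D, hg, _, rfl⟩
  obtain ⟨c, hc⟩ := hint (D (σ 2)) ⟨D, hg, _, rfl⟩
  obtain ⟨d, hd⟩ := hint (D (σ 3)) ⟨D, hg, _, rfl⟩
  have ha0 : (D (σ 0)).curv = ((a : ℤ) : ℝ) := by rw [hσ, hCa]; simp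
  have hrel := (lor_rel _ (ht.comp σ)).1
  simp only [Fin.sum_univ_four] at hrel
  rw [ha0, hb, hc, hd] at hrel
  have hrelZ : ((a : ℤ) + b + c + d) ^ 2 = 2 * ((a : ℤ) ^ 2 + b ^ 2 + c ^ 2 + d ^ 2) := by
    exact_mod_cast hrel
  have heven : Even ((a : ℤ) + b + c + d) := by
    have : Even (((a : ℤ) + b + c + d) ^ 2) := by rw [hrelZ]; exact even_two_mul _
    exact (Int.even_pow.1 this).1
  obtain ⟨s, hs⟩ := heven
  have hAB := (swap_pair_nonneg ht hpos (i := σ 0) (j := σ 1)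
    (fun e => absurd (σ.injective e) (by decide))).1
  have hAE := (swap_pair_nonneg ht hpos (i := σ 0) (j := σ 2)
    (fun e => absurd (σ.injective e) (by decide))).1
  rw [ha0, hb] at hAB
  rw [ha0, hc] at hAE
  have hA0 : 0 ≤ (a : ℤ) + b := by exact_mod_cast hAB
  have hE0 : 0 ≤ (a : ℤ) + c := by exact_mod_cast hAE
  have hapos : (0 : ℤ) < a := by exact_mod_cast ha.pos
  have hdet : ((a : ℤ) + b) * (a + c) - (s - d) ^ 2 = (a : ℤ) ^ 2 := by
    have hs' : 2 * s = (a : ℤ) + b + c + d := by linarith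
    have : 4 * (((a : ℤ) + b) * (a + c) - (s - d) ^ 2) = 4 * (a : ℤ) ^ 2 := by
      have e : 4 * (s - d) ^ 2 = ((a : ℤ) + b + c - d) ^ 2 := by
        have : 2 * (s - d) = (a : ℤ) + b + c - d := by linarith
        rw [← this]; ring
      rw [mul_sub, e]
      linear_combination hrelZ
    linarith
  have hprod : 0 < ((a : ℤ) + b) * (a + c) := by
    have : ((a : ℤ) + b) * (a + c) = (a : ℤ) ^ 2 + (s - d) ^ 2 := by linarith
    rw [this]; positivity
  refine ⟨a + b, s - d, a + c, ?_, ?_, hdet, ?_, ?_⟩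
  · exact lt_of_le_of_ne hA0 (fun h => by rw [← h, zero_mul] at hprod; exact lt_irrefl _ hprod)
  · exact lt_of_le_of_ne hE0 (fun h => by rw [← h, mul_zero] at hprod; exact lt_irrefl _ hprod)
  · rintro ⟨h1, h2⟩
    have hb' : (a : ℤ) ∣ b := (dvd_add_right (dvd_refl _)).1 h1
    have hc' : (a : ℤ) ∣ c := (dvd_add_right (dvd_refl _)).1 h2
    have hB2 : (a : ℤ) ∣ (s - d) ^ 2 := by
      have : (s - d) ^ 2 = ((a : ℤ) + b) * (a + c) - (a : ℤ) ^ 2 := by linarith
      rw [this]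
      exact dvd_sub (dvd_mul_of_dvd_left h1 _) (dvd_pow_self _ (by norm_num))
    have hB : (a : ℤ) ∣ s - d := (Nat.prime_iff_prime_int.1 ha).dvd_of_dvd_pow hB2
    have hd' : (a : ℤ) ∣ d := by
      have : d = (a : ℤ) + b + c - 2 * (s - d) := by linarith
      rw [this]
      exact dvd_sub (dvd_add (dvd_add (dvd_refl _) hb') hc') (dvd_mul_of_dvd_right hB _)
    have hall : DvC (a : ℝ) D := by
      intro j
      obtain ⟨k, rfl⟩ : ∃ k, σ k = j := ⟨σ.symm j, by simp⟩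
      have hk : ∀ k : Fin 4, k = 0 ∨ k = 1 ∨ k = 2 ∨ k = 3 := by decide
      rcases hk k with rfl | rfl | rfl | rfl
      · exact ⟨1, by rw [ha0]; simp⟩
      · obtain ⟨n, hn⟩ := hb'
        exact ⟨n, by rw [hb, hn]; push_cast; ring⟩
      · obtain ⟨n, hn⟩ := hc'
        exact ⟨n, by rw [hc, hn]; push_cast; ring⟩
      · obtain ⟨n, hn⟩ := hd'
        exact ⟨n, by rw [hd, hn]; push_cast; ring⟩
    exact ha.one_lt.ne' (intForm_prim h₀ hprim hg a hall)
  · intro x y hxy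
    obtain ⟨C', hT, hcurv⟩ := tangents_curv h₀ hg σ x y hxy
    rw [hσ] at hT
    refine ⟨C', hT, ?_⟩
    rw [hcurv, ha0, hb, hc, hd]
    unfold qv
    have hs' : (((a : ℤ) : ℝ) + b + c - d) / 2 = ((s - d : ℤ) : ℝ) := by
      have : 2 * (s - d) = (a : ℤ) + b + c - d := by linarith
      have : 2 * ((s - d : ℤ) : ℝ) = ((a : ℤ) : ℝ) + b + c - d := by exact_mod_cast this
      linarith
    rw [hs']
    push_cast
    ring

end Pool.Agent.Wd33b62g
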