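import Mathlib

/-!
# Integral Apollonian packings, tangency, prime components

Definitions for MP_d33b62_nt.
-/

namespace Pool.Agent.Wd33b62g

/-- An oriented generalised circle of the plane, in augmented curvature-centre coordinates: the
curve `curv * (u^2 + v^2) - 2 * (x * u + y * v) + cocurv = 0`, with interior the set of the points
`(u, v)` where the left side is negative.  If `curv ≠ 0` this is the circle of centre
`(x / curv, y / curv)` and radius `1 / |curv|`; its interior is the disc if `curv > 0` and the
outside of the disc if `curv < 0`.  If `curv = 0` it is a line and its interior is a half plane. -/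
@[ext]
structure Circ where
  curv : ℝ
  cocurv : ℝ
  x : ℝ
  y : ℝ
  norm_eq : x ^ 2 + y ^ 2 - curv * cocurv = 1

/-- The interior of an oriented generalised circle. -/
def Circ.interior (C : Circ) : Set (ℝ × ℝ) :=
  {z | C.curv * (z.1 ^ 2 + z.2 ^ 2) - 2 * (C.x * z.1 + C.y * z.2) + C.cocurv < 0}

/-- The inversive product of two oriented generalised circles. -/
noncomputable def ip (C C' : Circ) : ℝ :=
  C.x * C'.x + C.y * C'.y - (C.curv * C'.cocurv + C.cocurv * C'.curv) / 2

/-- The two circles are tangent, with compatible orientations: the inversive product is `-1`.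
For non-zero curvatures `b, b'` this says that the distance of the centres is `|1/b + 1/b'|`
(see `tangent_iff_dist`), which for circles with disjoint interiors is tangency. -/
def Tangent (C C' : Circ) : Prop := ip C C' = -1

/-- A Descartes configuration: four mutually tangent circles with disjoint interiors. -/
def IsDescartes (D : Fin 4 → Circ) : Prop :=
  ∀ i j, i ≠ j → Tangent (D i) (D j) ∧ Disjoint (D i).interior (D j).interior

/-- The Descartes configurations obtained from `D₀` by repeatedly replacing one circle of the
configuration by the other circle which is tangent to the remaining three (the circle inscribed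
in the gap between these three). -/
inductive Gen (D₀ : Fin 4 → Circ) : (Fin 4 → Circ) → Prop
  | base : Gen D₀ D₀
  | step {D D' : Fin 4 → Circ} (i : Fin 4) : Gen D₀ D → IsDescartes D' →
      (∀ j, j ≠ i → D' j = D j) → D' i ≠ D i → Gen D₀ D'

/-- The Apollonian packing of the Descartes configuration `D₀`, as a set of circles. -/
def packing (D₀ : Fin 4 → Circ) : Set Circ := {C | ∃ D, Gen D₀ D ∧ ∃ i, D i = C}

/-- All curvatures are integers. -/
def IsIntegral (P : Set Circ) : Prop := ∀ C ∈ P, ∃ n : ℤ, C.curv = n

/-- The (integer) curvatures have no common divisor other than 1. -/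
def IsPrimitive (P : Set Circ) : Prop :=
  ∀ d : ℕ, (∀ C ∈ P, ∃ n : ℤ, C.curv = (d : ℝ) * n) → d = 1

/-- The curvature is an odd prime. -/
def OddPrimeCurv (C : Circ) : Prop := ∃ p : ℕ, p.Prime ∧ p ≠ 2 ∧ C.curv = p

/-- The edges of the tangency graph of `P` between circles of odd prime curvature. -/
def Adj (P : Set Circ) (C C' : Circ) : Prop :=
  C ∈ P ∧ C' ∈ P ∧ OddPrimeCurv C ∧ OddPrimeCurv C' ∧ Tangent C C'

/-- The prime component of the circle `C` of `P` (of odd prime curvature). -/
def component (P : Set Circ) (C : Circ) : Set Circ :=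
  {C' | Relation.ReflTransGen (Adj P) C C'}

/-- The primes which are curvatures of circles in `K`. -/
def curvPrimes (K : Set Circ) : Set ℕ := {p | p.Prime ∧ ∃ C ∈ K, C.curv = p}

/-- For non-zero curvatures, tangency in terms of centres and (signed) radii. -/
theorem tangent_iff_dist (C C' : Circ) (h : C.curv ≠ 0) (h' : C'.curv ≠ 0) :
    Tangent C C' ↔ (C.x / C.curv - C'.x / C'.curv) ^ 2 + (C.y / C.curv - C'.y / C'.curv) ^ 2 =
      (1 / C.curv + 1 / C'.curv) ^ 2 := by
  have h1 := C.norm_eq
  have h2 := C'.norm_eq
  unfold Tangent ip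
  have e1 : (C.x / C.curv - C'.x / C'.curv) ^ 2 + (C.y / C.curv - C'.y / C'.curv) ^ 2 -
      (1 / C.curv + 1 / C'.curv) ^ 2 =
      (-2 / (C.curv * C'.curv)) * (C.x * C'.x + C.y * C'.y -
        (C.curv * C'.cocurv + C.cocurv * C'.curv) / 2 + 1) := by
    have hx : C.x ^ 2 + C.y ^ 2 = 1 + C.curv * C.cocurv := by linarith
    have hx' : C'.x ^ 2 + C'.y ^ 2 = 1 + C'.curv * C'.cocurv := by linarith
    field_simp
    linear_combination C'.curv ^ 2 * hx + C.curv ^ 2 * hx'
  have hne : (-2 / (C.curv * C'.curv)) ≠ 0 := div_ne_zero (by norm_num) (mul_ne_zero h h')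
  constructor
  · intro ht
    have : C.x * C'.x + C.y * C'.y - (C.curv * C'.cocurv + C.cocurv * C'.curv) / 2 + 1 = 0 := by
      linarith
    rw [this, mul_zero] at e1
    linarith
  · intro ht
    have : (-2 / (C.curv * C'.curv)) * (C.x * C'.x + C.y * C'.y -
        (C.curv * C'.cocurv + C.cocurv * C'.curv) / 2 + 1) = 0 := by rw [← e1]; linarith
    rcases mul_eq_zero.1 this with h0 | h0
    · exact absurd h0 hne
    · linarith

end Pool.Agent.Wd33b62g
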