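import Mathlib

/-!
# Gaussian integers: binary forms of square determinant, primitive elements
-/

namespace Pool.Agent.Wd33b62g

open Zsqrtd

/-- Primitive Gaussian integers. -/
def GPrim (z : GaussianInt) : Prop := IsCoprime z.re z.im

theorem gaussA_norm (z : GaussianInt) : Zsqrtd.norm z = z.re ^ 2 + z.im ^ 2 := by
  rw [Zsqrtd.norm_def]; ring

theorem gaussA_norm_cast (z : GaussianInt) : ((Zsqrtd.norm z : ℤ) : GaussianInt) = z * star z :=
  Zsqrtd.norm_eq_mul_conj z

theorem gaussA_star_int (n : ℤ) : star (n : GaussianInt) = (n : GaussianInt) := by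
  ext <;> simp

theorem gaussA_norm_star (z : GaussianInt) : Zsqrtd.norm (star z) = Zsqrtd.norm z := by
  rw [gaussA_norm, gaussA_norm]; simp

theorem GPrim.norm_ne {z : GaussianInt} (h : GPrim z) : Zsqrtd.norm z ≠ 0 := by
  intro h0
  rw [gaussA_norm] at h0
  have h1 : z.re = 0 := by nlinarith [sq_nonneg z.re, sq_nonneg z.im]
  have h2 : z.im = 0 := by nlinarith [sq_nonneg z.re, sq_nonneg z.im]
  obtain ⟨u, v, huv⟩ := h
  rw [h1, h2] at huv
  simp at huv

theorem GPrim.conj {z : GaussianInt} (h : GPrim z) : GPrim (star z) := by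
  unfold GPrim at *
  simpa using h.neg_right

/-- A prime dividing a primitive element: impossible. -/
theorem GPrim.not_dvd {z : GaussianInt} (h : GPrim z) {q : ℤ} (hq : Prime q)
    (hd : (q : GaussianInt) ∣ z) : False := by
  rw [Zsqrtd.intCast_dvd] at hd
  exact hq.not_unit (h.isUnit_of_dvd' hd.1 hd.2)

theorem gaussA_prim_of {z : GaussianInt} (h0 : z ≠ 0)
    (h : ∀ q : ℤ, Prime q → ¬ (q : GaussianInt) ∣ z) : GPrim z := by
  unfold GPrim
  apply isCoprime_of_prime_dvd
  · rintro ⟨h1, h2⟩
    exact h0 (Zsqrtd.ext h1 h2)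
  · intro q hq h1 h2
    exact h q hq ((Zsqrtd.intCast_dvd q z).2 ⟨h1, h2⟩)

/-- If a prime `q` divides `n * z` (`n` an integer) and `z` is primitive, then `q ∣ n`. -/
theorem GPrim.dvd_int {z : GaussianInt} (h : GPrim z) {q : ℤ} (hq : Prime q) {n : ℤ}
    (hd : (q : GaussianInt) ∣ (n : GaussianInt) * z) : q ∣ n := by
  by_contra hn
  rw [Zsqrtd.intCast_dvd] at hd
  have h1 : q ∣ n * z.re := by simpa using hd.1
  have h2 : q ∣ n * z.im := by simpa using hd.2
  have h1' := (hq.dvd_or_dvd h1).resolve_left hn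
  have h2' := (hq.dvd_or_dvd h2).resolve_left hn
  exact h.not_dvd hq ((Zsqrtd.intCast_dvd q z).2 ⟨h1', h2'⟩)

theorem GPrim.mul {z w : GaussianInt} (hz : GPrim z) (hw : GPrim w)
    (hc : IsCoprime (Zsqrtd.norm z) (Zsqrtd.norm w)) : GPrim (z * w) := by
  apply gaussA_prim_of
  · intro h0
    have : Zsqrtd.norm (z * w) = 0 := by rw [h0]; simp
    rw [Zsqrtd.norm_mul] at this
    rcases mul_eq_zero.1 this with h | h
    · exact hz.norm_ne h
    · exact hw.norm_ne h
  · intro q hq hd
    have h1 : (q : GaussianInt) ∣ ((Zsqrtd.norm z : ℤ) : GaussianInt) * w := by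
      rw [gaussA_norm_cast]
      obtain ⟨t, ht⟩ := hd
      exact ⟨t * star z, by linear_combination (star z) * ht⟩
    have h2 : (q : GaussianInt) ∣ ((Zsqrtd.norm w : ℤ) : GaussianInt) * z := by
      rw [gaussA_norm_cast]
      obtain ⟨t, ht⟩ := hd
      exact ⟨t * star w, by linear_combination (star w) * ht⟩
    exact hq.not_unit (hc.isUnit_of_dvd' (hw.dvd_int hq h1) (hz.dvd_int hq h2))

/-- A positive definite form of square determinant is the norm form of a lattice of Gaussian
integers. -/
theorem gaussA_rep (A B E a : ℤ) (hA : 0 < A) (hdet : A * E - B ^ 2 = a ^ 2)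
    (hcop : IsCoprime A a) (hodd : ¬ ((2 : ℤ) ∣ A ∧ (2 : ℤ) ∣ E)) :
    ∃ α β : GaussianInt, Zsqrtd.norm α = A ∧ Zsqrtd.norm β = E ∧ star α * β = ⟨B, a⟩ ∧
      GPrim α := by
  -- a relation
  have hbez : ∃ u v r : ℤ, u * A + v * E + r * (2 * a) = 1 := by
    obtain ⟨x, y, hxy⟩ := hcop
    by_cases h2 : (2 : ℤ) ∣ A
    · have hE : ¬ (2 : ℤ) ∣ E := fun h => hodd ⟨h2, h⟩
      have hE' : IsCoprime (2 : ℤ) E := (Prime.coprime_iff_not_dvd Int.prime_two).2 hE
      obtain ⟨q, p, hpq⟩ := hE'
      exact ⟨x * (p * E + 2 * q), y * a * p, y * q, by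
        linear_combination (p * E + 2 * q) * hxy + hpq⟩
    · have hA' : IsCoprime (2 : ℤ) A := (Prime.coprime_iff_not_dvd Int.prime_two).2 h2
      obtain ⟨q, p, hpq⟩ := hA'
      exact ⟨x * (p * A + 2 * q) + y * a * p, 0, y * q, by
        linear_combination (p * A + 2 * q) * hxy + hpq⟩
  obtain ⟨u, v, r, hbz⟩ := hbez
  set w : GaussianInt := ⟨B, a⟩ with hw
  have hww : w * star w = ((A * E : ℤ) : GaussianInt) := by
    rw [hw]
    ext
    · simp; linarith
    · simp; ring
  set g := EuclideanDomain.gcd (A : GaussianInt) w with hg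
  obtain ⟨s, hs⟩ : g ∣ (A : GaussianInt) := EuclideanDomain.gcd_dvd_left _ _
  obtain ⟨β, hβ⟩ : g ∣ w := EuclideanDomain.gcd_dvd_right _ _
  have hgab := EuclideanDomain.gcd_eq_gcd_ab (A : GaussianInt) w
  rw [← hg] at hgab
  set p := EuclideanDomain.gcdA (A : GaussianInt) w
  set q := EuclideanDomain.gcdB (A : GaussianInt) w
  have hsA : star g * star s = (A : GaussianInt) := by
    have := congrArg star hs
    rw [gaussA_star_int, star_mul] at this
    rw [this]; ring
  have hsw : star w = star g * star β := by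
    have := congrArg star hβ
    rw [star_mul] at this
    rw [this]; ring
  have hsg : star g = (A : GaussianInt) * star p + star w * star q := by
    have := congrArg star hgab
    rw [star_add, star_mul, star_mul, gaussA_star_int] at this
    rw [this]; ring
  have hcastAE : ((A * E : ℤ) : GaussianInt) = (A : GaussianInt) * (E : GaussianInt) := by
    push_cast; ring
  have hd1 : A ∣ Zsqrtd.norm g := by
    rw [← Zsqrtd.intCast_dvd_intCast (d := -1), gaussA_norm_cast]
    refine ⟨(A : GaussianInt) * (p * star p) + p * star w * star q + w * q * star p +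
      (E : GaussianInt) * (q * star q), ?_⟩
    rw [hcastAE] at hww
    calc g * star g = ((A : GaussianInt) * p + w * q) *
          ((A : GaussianInt) * star p + star w * star q) := by rw [← hgab, ← hsg]
      _ = _ := by linear_combination (q * star q) * hww
  have hd2 : Zsqrtd.norm g ∣ A := by
    rw [← Zsqrtd.intCast_dvd_intCast (d := -1), gaussA_norm_cast]
    have hi : ((2 * a : ℤ) : GaussianInt) = -(⟨0, 1⟩ : GaussianInt) * (w - star w) := by
      rw [hw]
      ext
      · simp; ring
      · simp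
    have hbz' : (u : GaussianInt) * A + (v : GaussianInt) * E +
        (r : GaussianInt) * ((2 * a : ℤ) : GaussianInt) = 1 := by
      have := congrArg (fun n : ℤ => (n : GaussianInt)) hbz
      push_cast at this ⊢
      exact this
    rw [hi] at hbz'
    rw [hcastAE] at hww
    refine ⟨(u : GaussianInt) * (s * star s) + (v : GaussianInt) * (β * star β) -
      (r : GaussianInt) * (⟨0, 1⟩ : GaussianInt) * (β * star s - star β * s), ?_⟩
    have e1 : (A : GaussianInt) * A = g * star g * (s * star s) := by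
      calc (A : GaussianInt) * A = (g * s) * (star g * star s) := by rw [← hs, hsA]
        _ = _ := by ring
    have e2 : (A : GaussianInt) * E = g * star g * (β * star β) := by
      rw [← hww]
      calc w * star w = (g * β) * (star g * star β) := by rw [← hβ, hsw]
        _ = _ := by ring
    have e3 : w * (A : GaussianInt) = g * star g * (β * star s) := by
      calc w * (A : GaussianInt) = (g * β) * (star g * star s) := by rw [← hβ, hsA]
        _ = _ := by ring
    have e4 : star w * (A : GaussianInt) = g * star g * (star β * s) := by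
      calc star w * (A : GaussianInt) = (star g * star β) * (g * s) := by rw [← hs, hsw]
        _ = _ := by ring
    linear_combination (-(A : GaussianInt)) * hbz' + (u : GaussianInt) * e1 +
      (v : GaussianInt) * e2 - (r : GaussianInt) * (⟨0, 1⟩ : GaussianInt) * e3 +
      (r : GaussianInt) * (⟨0, 1⟩ : GaussianInt) * e4
  have hgnn : 0 ≤ Zsqrtd.norm g := by rw [gaussA_norm]; positivity
  have hgA : Zsqrtd.norm g = A := by
    exact Int.dvd_antisymm hgnn hA.le hd2 hd1
  have hg0 : g ≠ 0 := by
    intro h0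
    rw [h0] at hgA
    simp at hgA
    omega
  refine ⟨star g, β, ?_, ?_, ?_, ?_⟩
  · rw [gaussA_norm_star]; exact hgA
  · have h1 : Zsqrtd.norm w = A * E := by
      rw [gaussA_norm, hw]; simp only; linarith
    have h2 : Zsqrtd.norm w = Zsqrtd.norm g * Zsqrtd.norm β := by
      rw [hβ, Zsqrtd.norm_mul]
    rw [h1, hgA] at h2
    exact (mul_left_cancel₀ hA.ne' h2).symm
  · rw [star_star]; exact hβ.symm
  · apply GPrim.conj
    apply gaussA_prim_of hg0
    intro q' hq' hd
    have h1 : (q' : GaussianInt) ∣ w := hd.trans ⟨β, hβ⟩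
    rw [Zsqrtd.intCast_dvd] at h1
    have h2 : q' ∣ a := by rw [hw] at h1; exact h1.2
    have h3 : (q' : GaussianInt) ∣ (A : GaussianInt) := hd.trans ⟨s, hs⟩
    rw [Zsqrtd.intCast_dvd_intCast] at h3
    exact hq'.not_unit (hcop.isUnit_of_dvd' h3 h2)

/-- Elements of the lattice. -/
theorem gaussA_lattice {α β : GaussianInt} {A B E a : ℤ} (hα : Zsqrtd.norm α = A)
    (hβ : Zsqrtd.norm β = E) (hαβ : star α * β = ⟨B, a⟩) (hp : GPrim α) {z : GaussianInt}
    (hz : GPrim z) (hd : a ∣ (z * star α).im) :
    ∃ x y : ℤ, IsCoprime x y ∧ A * x ^ 2 + 2 * B * x * y + E * y ^ 2 = Zsqrtd.norm z := by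
  obtain ⟨y, hy⟩ := hd
  have hre : α.re * β.re + α.im * β.im = B := by
    have := congrArg Zsqrtd.re hαβ
    simp at this
    linarith
  have him : α.re * β.im - α.im * β.re = a := by
    have := congrArg Zsqrtd.im hαβ
    simp at this
    linarith
  have hy' : z.im * α.re - z.re * α.im = a * y := by
    simp at hy
    linarith
  obtain ⟨u, v, huv⟩ := hp
  set x : ℤ := u * (z.re - y * β.re) + v * (z.im - y * β.im) with hx
  have h0 : α.re * (z.im - y * β.im) = α.im * (z.re - y * β.re) := by
    linear_combination hy' - y * him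
  have hzre : z.re = x * α.re + y * β.re := by
    rw [hx]
    linear_combination (-(z.re - y * β.re)) * huv - v * h0
  have hzim : z.im = x * α.im + y * β.im := by
    rw [hx]
    linear_combination (-(z.im - y * β.im)) * huv + u * h0
  refine ⟨x, y, ?_, ?_⟩
  · obtain ⟨p, q, hpq⟩ := hz
    exact ⟨p * α.re + q * α.im, p * β.re + q * β.im, by
      rw [hzre, hzim] at hpq; linear_combination hpq⟩
  · rw [gaussA_norm] at hα hβ ⊢
    rw [hzre, hzim]
    linear_combination (-x ^ 2) * hα - y ^ 2 * hβ - 2 * x * y * hre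

end Pool.Agent.Wd33b62g
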