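import Pool.Agent.W_d33b62_h49.GaussA

/-!
# Primitive Gaussian integers of given norm; primitive elements in residue classes
-/

namespace Pool.Agent.Wd33b62g

open Zsqrtd

theorem gaussB_step (p : ℕ) (hp : p.Prime) (hp4 : p % 4 = 1) (w : GaussianInt) (hw : GPrim w) :
    ∃ w' : GaussianInt, GPrim w' ∧ Zsqrtd.norm w' = p * Zsqrtd.norm w := by
  haveI := Fact.mk hp
  obtain ⟨x, y, hxy⟩ := Nat.Prime.sq_add_sq (p := p) (by omega)
  set π : GaussianInt := ⟨x, y⟩ with hπ
  have hn : Zsqrtd.norm π = p := by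
    rw [gaussA_norm, hπ]; simp only; exact_mod_cast hxy
  have hpi : Prime (p : ℤ) := Nat.prime_iff_prime_int.1 hp
  have hp0 : (p : GaussianInt) ≠ 0 := by
    have := hp.ne_zero
    exact_mod_cast this
  have hnc : ((p : ℤ) : GaussianInt) = π * star π := by rw [← hn, gaussA_norm_cast]
  have hπ0 : π ≠ 0 := by
    intro h0
    rw [h0] at hn
    simp at hn
    exact hp.ne_zero (by exact_mod_cast hn.symm)
  have hsπ0 : star π ≠ 0 := by
    intro h0
    apply hπ0
    have := congrArg star h0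
    simpa using this
  -- `π` and its conjugate are coprime
  have hpx : ¬ (p : ℤ) ∣ 2 * x := by
    intro hd
    rcases hpi.dvd_or_dvd hd with h | h
    · have : p ∣ 2 := by exact_mod_cast h
      have := (Nat.prime_dvd_prime_iff_eq hp Nat.prime_two).1 this
      omega
    · have h1 : p ∣ x := by exact_mod_cast h
      have h2 : p ∣ y ^ 2 := by
        have : p ∣ x ^ 2 + y ^ 2 := by rw [hxy]
        exact (Nat.dvd_add_right (dvd_pow h1 two_ne_zero)).1 this
      have h3 : p ∣ y := hp.dvd_of_dvd_pow h2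
      have h4 : p ^ 2 ∣ x ^ 2 + y ^ 2 := dvd_add (pow_dvd_pow_of_dvd h1 2) (pow_dvd_pow_of_dvd h3 2)
      rw [hxy] at h4
      have h5 := Nat.le_of_dvd hp.pos h4
      nlinarith [hp.two_le]
  have hcop : IsCoprime π (star π) := by
    obtain ⟨u, v, huv⟩ := (Prime.coprime_iff_not_dvd hpi).2 hpx
    have h2x : ((2 * (x : ℤ) : ℤ) : GaussianInt) = π + star π := by
      rw [hπ]; ext
      · simp; ring
      · simp
    have e : (u : GaussianInt) * ((p : ℤ) : GaussianInt) +
        (v : GaussianInt) * ((2 * (x : ℤ) : ℤ) : GaussianInt) = 1 := by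
      have := congrArg (fun n : ℤ => (n : GaussianInt)) huv
      push_cast at this ⊢
      exact this
    rw [h2x, hnc] at e
    exact ⟨(u : GaussianInt) * star π + v, (v : GaussianInt), by linear_combination e⟩
  have hne : ∀ ρ : GaussianInt, Zsqrtd.norm ρ = p → ρ * w ≠ 0 := by
    intro ρ hρ h0
    have : Zsqrtd.norm (ρ * w) = 0 := by rw [h0]; simp
    rw [Zsqrtd.norm_mul, hρ] at this
    rcases mul_eq_zero.1 this with h | h
    · exact hpi.ne_zero h
    · exact hw.norm_ne h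
  -- if `ρ * w` is not primitive then the conjugate of `ρ` divides `w`
  have key : ∀ ρ : GaussianInt, ρ ≠ 0 → Zsqrtd.norm ρ = p → ¬ GPrim (ρ * w) → star ρ ∣ w := by
    intro ρ hρ0 hρ hnp
    by_contra hcon
    apply hnp
    apply gaussA_prim_of (hne ρ hρ)
    intro q hq hd
    have hρc : ((p : ℤ) : GaussianInt) = ρ * star ρ := by rw [← hρ, gaussA_norm_cast]
    have h1 : (q : GaussianInt) ∣ ((p : ℤ) : GaussianInt) * w := by
      rw [hρc]
      obtain ⟨t, ht⟩ := hd
      exact ⟨t * star ρ, by linear_combination (star ρ) * ht⟩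
    have h2 : q ∣ (p : ℤ) := hw.dvd_int hq h1
    have h3 : (p : ℤ) ∣ q := (hq.dvd_prime_iff_associated hpi).1 h2 |>.symm.dvd
    have h4 : ((p : ℤ) : GaussianInt) ∣ ρ * w :=
      ((Zsqrtd.intCast_dvd_intCast (d := -1) (p : ℤ) q).2 h3).trans hd
    rw [hρc] at h4
    exact hcon ((mul_dvd_mul_iff_left hρ0).1 h4)
  by_cases h1 : GPrim (π * w)
  · exact ⟨π * w, h1, by rw [Zsqrtd.norm_mul, hn]⟩
  by_cases h2 : GPrim (star π * w)
  · exact ⟨star π * w, h2, by rw [Zsqrtd.norm_mul, gaussA_norm_star, hn]⟩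
  exfalso
  have d1 := key π hπ0 hn h1
  have d2 := key (star π) hsπ0 (by rw [gaussA_norm_star, hn]) h2
  rw [star_star] at d2
  have d3 : π * star π ∣ w := hcop.mul_dvd d2 d1
  rw [← hnc] at d3
  exact hw.not_dvd hpi d3

/-- Every positive integer composed of primes congruent to 1 mod 4 is the norm of a primitive
Gaussian integer. -/
theorem gaussB_exists (m : ℕ) (hm : m ≠ 0) (h : ∀ p : ℕ, p.Prime → p ∣ m → p % 4 = 1) :
    ∃ w : GaussianInt, GPrim w ∧ Zsqrtd.norm w = m := by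
  induction m using induction_on_primes with
  | zero => exact absurd rfl hm
  | one => exact ⟨1, by unfold GPrim; simp only [Zsqrtd.re_one, Zsqrtd.im_one]; exact isCoprime_one_left, by simp⟩
  | prime_mul p a hp ih =>
    have ha : a ≠ 0 := by rintro rfl; exact hm (mul_zero _)
    obtain ⟨w, hw, hn⟩ := ih ha (fun q hq hd => h q hq (hd.mul_left p))
    obtain ⟨w', hw', hn'⟩ := gaussB_step p hp (h p hp (dvd_mul_right p a)) w hw
    exact ⟨w', hw', by rw [hn', hn]; push_cast; ring⟩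

/-- The chinese remainder theorem for two coprime integers. -/
theorem gaussB_crt {a n : ℤ} (h : IsCoprime a n) (c d : ℤ) :
    ∃ s : ℤ, a ∣ s - c ∧ n ∣ s - d := by
  obtain ⟨u, v, huv⟩ := h
  refine ⟨c * (v * n) + d * (u * a), ⟨(d - c) * u, ?_⟩, ⟨(c - d) * v, ?_⟩⟩
  · linear_combination c * huv
  · linear_combination d * huv

/-- A primitive element in a residue class mod `a`, with norm coprime to `M`. -/
theorem gaussB_class (a : ℕ) (ha : a.Prime) (κ : GaussianInt)
    (hκ : ¬ (a : ℤ) ∣ Zsqrtd.norm κ) (M : ℕ) (hM : M ≠ 0) :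
    ∃ z : GaussianInt, GPrim z ∧ IsCoprime (Zsqrtd.norm z) (M : ℤ) ∧
      (((a : ℤ) : GaussianInt)) ∣ z - κ := by
  have hai : Prime (a : ℤ) := Nat.prime_iff_prime_int.1 ha
  obtain ⟨e, M', hM', hMe⟩ := Nat.exists_eq_pow_mul_and_not_dvd hM a ha.ne_one
  have hM'0 : (M' : ℤ) ≠ 0 := by
    intro h0
    have : M' = 0 := by exact_mod_cast h0
    rw [this] at hM'
    exact hM' (dvd_zero _)
  have hcop : IsCoprime (a : ℤ) (M' : ℤ) := by
    rw [Prime.coprime_iff_not_dvd hai]
    intro h; exact hM' (by exact_mod_cast h)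
  -- the imaginary part
  obtain ⟨t, ht0, hta, htM⟩ : ∃ t : ℤ, t ≠ 0 ∧ (a : ℤ) ∣ t - κ.im ∧ (M' : ℤ) ∣ t := by
    obtain ⟨t, h1, h2⟩ := gaussB_crt hcop κ.im 0
    rw [sub_zero] at h2
    by_cases ht : t = 0
    · refine ⟨a * M', mul_ne_zero hai.ne_zero hM'0, ?_, dvd_mul_left _ _⟩
      rw [ht] at h1
      have : (a : ℤ) * M' - κ.im = a * M' + (0 - κ.im) := by ring
      rw [this]
      exact dvd_add (dvd_mul_right _ _) h1
    · exact ⟨t, ht, h1, h2⟩
  have htn : t.natAbs ≠ 0 := Int.natAbs_ne_zero.2 ht0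
  obtain ⟨f, t', ht', htf⟩ := Nat.exists_eq_pow_mul_and_not_dvd htn a ha.ne_one
  have hcop' : IsCoprime (a : ℤ) ((M' : ℤ) * t') := by
    rw [Prime.coprime_iff_not_dvd hai]
    intro h
    rcases hai.dvd_or_dvd h with h | h
    · exact hM' (by exact_mod_cast h)
    · exact ht' (by exact_mod_cast h)
  obtain ⟨s, hsa, hsn⟩ := gaussB_crt hcop' κ.re 1
  have hnorm : (a : ℤ) ∣ (s ^ 2 + t ^ 2) - Zsqrtd.norm κ := by
    rw [gaussA_norm]
    have : s ^ 2 + t ^ 2 - (κ.re ^ 2 + κ.im ^ 2) =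
        (s - κ.re) * (s + κ.re) + (t - κ.im) * (t + κ.im) := by ring
    rw [this]
    exact dvd_add (dvd_mul_of_dvd_left hsa _) (dvd_mul_of_dvd_left hta _)
  have hna : ¬ (a : ℤ) ∣ s ^ 2 + t ^ 2 := by
    intro h
    exact hκ ((dvd_sub_right h).1 hnorm)
  refine ⟨⟨s, t⟩, ?_, ?_, ?_⟩
  · unfold GPrim
    apply isCoprime_of_prime_dvd
    · rintro ⟨-, h2⟩; exact ht0 h2
    · intro q hq h1 h2
      simp only at h1 h2
      have h3 : q ∣ ((t.natAbs : ℕ) : ℤ) := by rw [Int.dvd_natCast, ← Int.natAbs_dvd_natAbs] at *; exact h2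
      rw [htf] at h3
      push_cast at h3
      rcases hq.dvd_or_dvd h3 with h4 | h4
      · have h5 : q ∣ (a : ℤ) := hq.dvd_of_dvd_pow h4
        have h6 : (a : ℤ) ∣ q := ((hq.dvd_prime_iff_associated hai).1 h5).symm.dvd
        exact hna (dvd_add (dvd_pow (h6.trans h1) two_ne_zero) (dvd_pow (h6.trans h2) two_ne_zero))
      · have h5 : q ∣ s - 1 := (h4.mul_left (M' : ℤ)).trans hsn
        exact hq.not_unit (isUnit_of_dvd_one ((dvd_sub_right h1).1 h5))
  · rw [gaussA_norm]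
    simp only
    apply isCoprime_of_prime_dvd
    · rintro ⟨h1, -⟩
      exact hna (by rw [h1]; exact dvd_zero _)
    · intro q hq h1 h2
      rw [hMe] at h2
      push_cast at h2
      rcases hq.dvd_or_dvd h2 with h4 | h4
      · have h5 : q ∣ (a : ℤ) := hq.dvd_of_dvd_pow h4
        have h6 : (a : ℤ) ∣ q := ((hq.dvd_prime_iff_associated hai).1 h5).symm.dvd
        exact hna (h6.trans h1)
      · have h5 : q ∣ s - 1 := (h4.mul_right (t' : ℤ)).trans hsn
        have h6 : q ∣ t := h4.trans htM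
        have h7 : q ∣ s ^ 2 := (dvd_add_left (dvd_pow h6 two_ne_zero)).1 h1
        have h8 : q ∣ s := hq.dvd_of_dvd_pow h7
        exact hq.not_unit (isUnit_of_dvd_one ((dvd_sub_right h8).1 h5))
  · rw [Zsqrtd.intCast_dvd]
    constructor
    · simpa using hsa
    · simpa using hta

end Pool.Agent.Wd33b62g
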