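import Pool.Agent.W_d33b62_h49.GaussB

/-!
# Representation by the forms of square determinant `a^2`
-/

namespace Pool.Agent.Wd33b62g

open Zsqrtd

theorem gaussC_family (a : ℕ) (ha : a.Prime) (Z : ℕ) (hZ : Z ≠ 0) (T : Finset GaussianInt) :
    (∀ κ ∈ T, ¬ (a : ℤ) ∣ Zsqrtd.norm κ) →
    ∃ z : GaussianInt → GaussianInt, (∀ κ ∈ T, GPrim (z κ) ∧
      IsCoprime (Zsqrtd.norm (z κ)) (Z : ℤ) ∧ ((a : ℤ) : GaussianInt) ∣ z κ - κ) ∧
      ∀ κ ∈ T, ∀ κ' ∈ T, κ ≠ κ' → IsCoprime (Zsqrtd.norm (z κ)) (Zsqrtd.norm (z κ')) := by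
  classical
  induction T using Finset.induction_on with
  | empty => intro _; exact ⟨id, by simp, by simp⟩
  | insert κ₀ T hκ₀ ih =>
    intro hT
    obtain ⟨z, hz1, hz2⟩ := ih (fun κ hκ => hT κ (Finset.mem_insert_of_mem hκ))
    set M : ℕ := Z * ∏ κ ∈ T, (Zsqrtd.norm (z κ)).natAbs with hM
    have hM0 : M ≠ 0 := by
      rw [hM]
      refine mul_ne_zero hZ (Finset.prod_ne_zero_iff.2 (fun κ hκ => ?_))
      exact Int.natAbs_ne_zero.2 (hz1 κ hκ).1.norm_ne
    obtain ⟨y, hy1, hy2, hy3⟩ := gaussB_class a ha κ₀ (hT κ₀ (Finset.mem_insert_self _ _)) M hM0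
    have hyZ : IsCoprime (Zsqrtd.norm y) (Z : ℤ) := by
      rw [hM] at hy2; push_cast at hy2
      exact hy2.of_mul_right_left
    have hyT : ∀ κ ∈ T, IsCoprime (Zsqrtd.norm y) (Zsqrtd.norm (z κ)) := by
      intro κ hκ
      rw [hM] at hy2; push_cast at hy2
      have h1 := hy2.of_mul_right_right
      have h2 := (IsCoprime.prod_right_iff.1 h1) κ hκ
      have h3 : (Zsqrtd.norm (z κ)) ∣ |Zsqrtd.norm (z κ)| := (dvd_abs _ _).2 dvd_rfl
      exact h2.of_isCoprime_of_dvd_right h3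
    refine ⟨Function.update z κ₀ y, ?_, ?_⟩
    · intro κ hκ
      rcases Finset.mem_insert.1 hκ with rfl | hκ'
      · rw [Function.update_self]
        exact ⟨hy1, hyZ, hy3⟩
      · have hne : κ ≠ κ₀ := fun e => hκ₀ (e ▸ hκ')
        rw [Function.update_of_ne hne]
        exact hz1 κ hκ'
    · intro κ hκ κ' hκ' hne
      rcases Finset.mem_insert.1 hκ with rfl | h1
      · have h2 := (Finset.mem_insert.1 hκ').resolve_left (Ne.symm hne)
        rw [Function.update_self, Function.update_of_ne (Ne.symm hne)]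
        exact hyT κ' h2
      · have hne1 : κ ≠ κ₀ := fun e => hκ₀ (e ▸ h1)
        rw [Function.update_of_ne hne1]
        rcases Finset.mem_insert.1 hκ' with rfl | h2
        · rw [Function.update_self]
          exact (hyT κ h1).symm
        · have hne2 : κ' ≠ κ₀ := fun e => hκ₀ (e ▸ h2)
          rw [Function.update_of_ne hne2]
          exact hz2 κ h1 κ' h2 hne

/-- The product of a family of primitive elements with pairwise coprime norms is primitive. -/
theorem gaussC_prod (T : Finset GaussianInt) (z : GaussianInt → GaussianInt) :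
    (∀ κ ∈ T, GPrim (z κ)) →
    (∀ κ ∈ T, ∀ κ' ∈ T, κ ≠ κ' → IsCoprime (Zsqrtd.norm (z κ)) (Zsqrtd.norm (z κ'))) →
    GPrim (∏ κ ∈ T, z κ) ∧ Zsqrtd.norm (∏ κ ∈ T, z κ) = ∏ κ ∈ T, Zsqrtd.norm (z κ) := by
  classical
  induction T using Finset.induction_on with
  | empty =>
    intro _ _
    refine ⟨?_, by simp⟩
    unfold GPrim
    simp only [Finset.prod_empty, Zsqrtd.re_one, Zsqrtd.im_one]
    exact isCoprime_one_left
  | insert κ₀ T hκ₀ ih =>
    intro h1 h2
    obtain ⟨i1, i2⟩ := ih (fun κ hκ => h1 κ (Finset.mem_insert_of_mem hκ))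
      (fun κ hκ κ' hκ' => h2 κ (Finset.mem_insert_of_mem hκ) κ' (Finset.mem_insert_of_mem hκ'))
    rw [Finset.prod_insert hκ₀, Finset.prod_insert hκ₀]
    refine ⟨?_, by rw [Zsqrtd.norm_mul, i2]⟩
    apply (h1 κ₀ (Finset.mem_insert_self _ _)).mul i1
    rw [i2]
    apply IsCoprime.prod_right
    intro κ hκ
    exact h2 κ₀ (Finset.mem_insert_self _ _) κ (Finset.mem_insert_of_mem hκ)
      (fun e => hκ₀ (e ▸ hκ))

/-- Prime factors of the norm of a primitive element of odd norm. -/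
theorem gaussC_mod_four {z : GaussianInt} (hz : GPrim z) (p : ℕ) (hp : p.Prime) (hp2 : p ≠ 2)
    (hd : (p : ℤ) ∣ Zsqrtd.norm z) : p % 4 = 1 := by
  have h1 : IsSquare (-1 : ZMod (Zsqrtd.norm z).natAbs) :=
    ZMod.isSquare_neg_one_of_eq_sq_add_sq_of_isCoprime (gaussA_norm z) hz
  have h2 : p ∣ (Zsqrtd.norm z).natAbs := by
    have := Int.natAbs_dvd_natAbs.2 hd
    simpa using this
  have h3 := Nat.mod_four_ne_three_of_mem_primeFactors_of_isSquare_neg_one
    (Nat.mem_primeFactors.2 ⟨hp, h2, Int.natAbs_ne_zero.2 hz.norm_ne⟩) h1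
  have h4 : p % 2 = 1 := hp.eq_two_or_odd.resolve_left hp2
  omega

/-- The set of classes. -/
theorem gaussC_classes (a : ℕ) (ha : a.Prime) : ∃ T : Finset GaussianInt,
    (∀ κ ∈ T, ¬ (a : ℤ) ∣ Zsqrtd.norm κ) ∧
    ∀ κ : GaussianInt, ¬ (a : ℤ) ∣ Zsqrtd.norm κ → ∃ κ' ∈ T, ((a : ℤ) : GaussianInt) ∣ κ' - κ := by
  classical
  let F : ℕ × ℕ → GaussianInt := fun u => ⟨(u.1 : ℤ), (u.2 : ℤ)⟩
  refine ⟨((Finset.range a ×ˢ Finset.range a).image F).filter
    (fun κ => ¬ (a : ℤ) ∣ Zsqrtd.norm κ), ?_, ?_⟩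
  · intro κ hκ; exact (Finset.mem_filter.1 hκ).2
  · intro κ hκ
    have ha0 : (0 : ℤ) < a := by exact_mod_cast ha.pos
    set x := κ.re % (a : ℤ) with hx
    set y := κ.im % (a : ℤ) with hy
    have hx0 : 0 ≤ x := Int.emod_nonneg _ ha0.ne'
    have hx1 : x < a := Int.emod_lt_of_pos _ ha0
    have hy0 : 0 ≤ y := Int.emod_nonneg _ ha0.ne'
    have hy1 : y < a := Int.emod_lt_of_pos _ ha0
    have hxd : (a : ℤ) ∣ x - κ.re := Int.dvd_emod_sub_self
    have hyd : (a : ℤ) ∣ y - κ.im := Int.dvd_emod_sub_self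
    refine ⟨⟨x, y⟩, ?_, ?_⟩
    · rw [Finset.mem_filter]
      refine ⟨Finset.mem_image.2 ⟨(x.toNat, y.toNat), ?_, ?_⟩, ?_⟩
      · rw [Finset.mem_product, Finset.mem_range, Finset.mem_range]
        constructor <;> simp only <;> omega
      · simp only [F]
        ext
        · simp only; omega
        · simp only; omega
      · intro h
        apply hκ
        rw [gaussA_norm] at h ⊢
        simp only at h
        have : κ.re ^ 2 + κ.im ^ 2 = x ^ 2 + y ^ 2 - ((x - κ.re) * (x + κ.re) +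
          (y - κ.im) * (y + κ.im)) := by ring
        rw [this]
        exact dvd_sub h (dvd_add (dvd_mul_of_dvd_left hxd _) (dvd_mul_of_dvd_left hyd _))
    · rw [Zsqrtd.intCast_dvd]
      exact ⟨by simpa using hxd, by simpa using hyd⟩

end Pool.Agent.Wd33b62g
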