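import Pool.Agent.W_d33b62_h49.GaussC

/-!
# The representation theorem for the forms of determinant `a^2`
-/

namespace Pool.Agent.Wd33b62g

open Zsqrtd

theorem gaussD_norm_congr {a : ℤ} {z κ : GaussianInt} (h : (a : GaussianInt) ∣ z - κ) :
    a ∣ Zsqrtd.norm z - Zsqrtd.norm κ := by
  rw [Zsqrtd.intCast_dvd] at h
  simp only [Zsqrtd.re_sub, Zsqrtd.im_sub] at h
  rw [gaussA_norm, gaussA_norm]
  have : z.re ^ 2 + z.im ^ 2 - (κ.re ^ 2 + κ.im ^ 2) =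
      (z.re - κ.re) * (z.re + κ.re) + (z.im - κ.im) * (z.im + κ.im) := by ring
  rw [this]
  exact dvd_add (dvd_mul_of_dvd_left h.1 _) (dvd_mul_of_dvd_left h.2 _)

theorem gaussD_dvd_star {a : ℤ} {z : GaussianInt} (h : (a : GaussianInt) ∣ z) :
    (a : GaussianInt) ∣ star z := by
  obtain ⟨t, rfl⟩ := h
  exact ⟨star t, by rw [star_mul, gaussA_star_int]; ring⟩

/-- Correction of the residue class by one conjugation. -/
theorem gaussD_correct (a : ℕ) (ha : a.Prime) (ha2 : a ≠ 2) (v : GaussianInt) (t : ℤ)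
    (ht : ¬ (a : ℤ) ∣ t) (hv : (a : ℤ) ∣ t ^ 2 - Zsqrtd.norm v) :
    ∃ t' : ℤ, ¬ (a : ℤ) ∣ Zsqrtd.norm ((t' : GaussianInt) + v) ∧
      ((a : ℤ) : GaussianInt) ∣ v * star ((t' : GaussianInt) + v) -
        (t' : GaussianInt) * ((t' : GaussianInt) + v) := by
  have hai : Prime (a : ℤ) := Nat.prime_iff_prime_int.1 ha
  have hcong : ∀ t' : ℤ, (a : ℤ) ∣ t' ^ 2 - Zsqrtd.norm v →
      ((a : ℤ) : GaussianInt) ∣ v * star ((t' : GaussianInt) + v) -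
        (t' : GaussianInt) * ((t' : GaussianInt) + v) := by
    intro t' ht'
    have e : v * star ((t' : GaussianInt) + v) - (t' : GaussianInt) * ((t' : GaussianInt) + v) =
        ((-(t' ^ 2 - Zsqrtd.norm v) : ℤ) : GaussianInt) := by
      have := gaussA_norm_cast v
      rw [star_add, gaussA_star_int]
      push_cast
      rw [this]
      ring
    rw [e, Zsqrtd.intCast_dvd_intCast]
    exact ht'.neg_right
  by_cases h1 : (a : ℤ) ∣ Zsqrtd.norm ((t : GaussianInt) + v)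
  · refine ⟨-t, ?_, hcong (-t) (by rw [neg_sq]; exact hv)⟩
    intro h2
    have hsum : (a : ℤ) ∣ 4 * t ^ 2 := by
      have e : 4 * t ^ 2 = Zsqrtd.norm ((t : GaussianInt) + v) +
          Zsqrtd.norm (((-t : ℤ) : GaussianInt) + v) + 2 * (t ^ 2 - Zsqrtd.norm v) := by
        simp only [gaussA_norm, Zsqrtd.re_add, Zsqrtd.im_add, Zsqrtd.re_intCast,
          Zsqrtd.im_intCast]
        ring
      rw [e]
      exact dvd_add (dvd_add h1 h2) (dvd_mul_of_dvd_right hv _)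
    rcases hai.dvd_or_dvd hsum with h | h
    · have h4 : a ∣ 2 ^ 2 := by
        have : (a : ℤ) ∣ ((2 ^ 2 : ℕ) : ℤ) := by norm_num; exact h
        exact_mod_cast this
      exact ha2 ((Nat.prime_dvd_prime_iff_eq ha Nat.prime_two).1 (ha.dvd_of_dvd_pow h4))
    · exact ht (hai.dvd_of_dvd_pow h)
  · exact ⟨t, h1, hcong t hv⟩

theorem gaussD_not_both_even {A B E a : ℤ} (hdet : A * E - B ^ 2 = a ^ 2) (ha : ¬ (2 : ℤ) ∣ a) :
    ¬ ((2 : ℤ) ∣ A ∧ (2 : ℤ) ∣ E) := by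
  rintro ⟨⟨A', rfl⟩, ⟨E', rfl⟩⟩
  have h1 : B ^ 2 + a ^ 2 = 4 * (A' * E') := by linarith
  obtain ⟨k, hk⟩ : ∃ k, a = 2 * k + 1 := by
    rcases Int.emod_two_eq_zero_or_one a with h | h
    · exact absurd (Int.dvd_of_emod_eq_zero h) ha
    · exact ⟨a / 2, by omega⟩
  subst hk
  rcases Int.even_or_odd' B with ⟨l, rfl | rfl⟩
  · have : 4 * (l ^ 2 + k ^ 2 + k - A' * E') = -1 := by linarith
    omega
  · have : 4 * (l ^ 2 + l + k ^ 2 + k - A' * E') = -2 := by linarith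
    omega

theorem gaussD_main0 (a : ℕ) [Fact a.Prime] (ha2 : a ≠ 2) (A B E : ℤ) (hA : 0 < A)
    (hdet : A * E - B ^ 2 = (a : ℤ) ^ 2) (hnA : ¬ (a : ℤ) ∣ A) (Z : ℕ) (hZ : Z ≠ 0) :
    ∃ D : ℕ, D ≠ 0 ∧ Nat.Coprime D Z ∧ Nat.Coprime D (2 * a) ∧
      (∀ p : ℕ, p.Prime → p ∣ D → p % 4 = 1) ∧
      ∀ m : ℕ, m ≠ 0 → (∀ p : ℕ, p.Prime → p ∣ m → p % 4 = 1) → Nat.Coprime m D →
        legendreSym a (2 * D * m) = legendreSym a A →
        ∃ x y : ℤ, IsCoprime x y ∧ A * x ^ 2 + 2 * B * x * y + E * y ^ 2 = 2 * D * m := by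
  classical
  have ha : a.Prime := Fact.out
  have hai : Prime (a : ℤ) := Nat.prime_iff_prime_int.1 ha
  have hodd : ¬ (2 : ℤ) ∣ (a : ℤ) := by
    intro h
    have : 2 ∣ a := by exact_mod_cast h
    exact ha2 ((Nat.prime_dvd_prime_iff_eq Nat.prime_two ha).1 this).symm
  have hcop : IsCoprime A (a : ℤ) := ((Prime.coprime_iff_not_dvd hai).2 hnA).symm
  obtain ⟨α, β, hα, hβ, hαβ, hαp⟩ := gaussA_rep A B E a hA hdet hcop
    (gaussD_not_both_even hdet hodd)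
  obtain ⟨T, hT1, hT2⟩ := gaussC_classes a ha
  obtain ⟨z, hz1, hz2⟩ := gaussC_family a ha (2 * Z) (by omega) T hT1
  have hzn : ∀ κ ∈ T, ¬ (a : ℤ) ∣ Zsqrtd.norm (z κ) := by
    intro κ hκ h
    exact hT1 κ hκ ((dvd_sub_right h).1 (gaussD_norm_congr (hz1 κ hκ).2.2))
  set D : ℕ := ∏ κ ∈ T, (Zsqrtd.norm (z κ)).natAbs with hD
  have hDcast : (D : ℤ) = ∏ κ ∈ T, Zsqrtd.norm (z κ) := by
    rw [hD]; push_cast
    apply Finset.prod_congr rfl
    intro κ _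
    rw [abs_of_nonneg]
    rw [gaussA_norm]; positivity
  have hDpos : D ≠ 0 := by
    rw [hD]
    exact Finset.prod_ne_zero_iff.2 (fun κ hκ => Int.natAbs_ne_zero.2 (hz1 κ hκ).1.norm_ne)
  have hc2Z : ∀ κ ∈ T, Nat.Coprime (Zsqrtd.norm (z κ)).natAbs (2 * Z) := by
    intro κ hκ
    have := Int.isCoprime_iff_gcd_eq_one.1 (hz1 κ hκ).2.1
    rw [Int.gcd_def, Int.natAbs_natCast] at this
    exact this
  have hDZ : Nat.Coprime D Z := by
    rw [hD]; exact Nat.Coprime.prod_left (fun κ hκ => (hc2Z κ hκ).coprime_mul_left_right)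
  have hD2 : Nat.Coprime D 2 := by
    rw [hD]; exact Nat.Coprime.prod_left (fun κ hκ => (hc2Z κ hκ).coprime_mul_right_right)
  have hDa : Nat.Coprime D a := by
    rw [hD]
    refine Nat.Coprime.prod_left (fun κ hκ => ?_)
    refine Nat.Coprime.symm ((Nat.Prime.coprime_iff_not_dvd ha).2 ?_)
    intro h
    exact hzn κ hκ (Int.natCast_dvd.2 h)
  refine ⟨D, hDpos, hDZ, hD2.mul_right hDa, ?_, ?_⟩
  · intro p hp hpD
    rw [hD] at hpD
    obtain ⟨κ, hκ, hd⟩ := (Nat.prime_iff.1 hp).exists_mem_finset_dvd hpD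
    refine gaussC_mod_four (hz1 κ hκ).1 p hp ?_ (Int.natCast_dvd.2 hd)
    rintro rfl
    have h1 := Nat.dvd_gcd hd (dvd_mul_right 2 Z)
    rw [hc2Z κ hκ] at h1
    omega
  intro m hm hm4 hmD hleg
  obtain ⟨w, hw, hwm⟩ := gaussB_exists m hm hm4
  have hm2 : Nat.Coprime m 2 := by
    rw [Nat.coprime_comm, Nat.Prime.coprime_iff_not_dvd Nat.prime_two]
    intro h
    have := hm4 2 Nat.prime_two h
    omega
  -- the general product
  have hgen : ∀ z' : GaussianInt → GaussianInt,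
      (∀ κ ∈ T, GPrim (z' κ) ∧ Zsqrtd.norm (z' κ) = Zsqrtd.norm (z κ)) →
      GPrim ((⟨1, 1⟩ : GaussianInt) * (∏ κ ∈ T, z' κ) * w) ∧
      Zsqrtd.norm ((⟨1, 1⟩ : GaussianInt) * (∏ κ ∈ T, z' κ) * w) = 2 * D * m := by
    intro z' hz'
    obtain ⟨h1, h2⟩ := gaussC_prod T z' (fun κ hκ => (hz' κ hκ).1)
      (fun κ hκ κ' hκ' hne => by
        rw [(hz' κ hκ).2, (hz' κ' hκ').2]; exact hz2 κ hκ κ' hκ' hne)
    have h3 : Zsqrtd.norm (∏ κ ∈ T, z' κ) = D := by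
      rw [h2, hDcast]
      exact Finset.prod_congr rfl (fun κ hκ => (hz' κ hκ).2)
    have h11 : Zsqrtd.norm (⟨1, 1⟩ : GaussianInt) = 2 := by rw [gaussA_norm]; norm_num
    have hp11 : GPrim (⟨1, 1⟩ : GaussianInt) := by
      unfold GPrim; exact isCoprime_one_left
    have h4 : GPrim ((⟨1, 1⟩ : GaussianInt) * (∏ κ ∈ T, z' κ)) := by
      apply hp11.mul h1
      rw [h11, h3]
      exact_mod_cast (Nat.isCoprime_iff_coprime.2 hD2.symm)
    have h5 : Zsqrtd.norm ((⟨1, 1⟩ : GaussianInt) * (∏ κ ∈ T, z' κ)) = 2 * D := by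
      rw [Zsqrtd.norm_mul, h11, h3]
    refine ⟨?_, ?_⟩
    · apply h4.mul hw
      rw [h5, hwm]
      have : Nat.Coprime (2 * D) m := (Nat.Coprime.mul_right hm2 hmD).symm
      exact_mod_cast (Nat.isCoprime_iff_coprime.2 this)
    · rw [Zsqrtd.norm_mul, h5, hwm]
  obtain ⟨hz0p, hz0n⟩ := hgen z (fun κ hκ => ⟨(hz1 κ hκ).1, rfl⟩)
  set z₀ := (⟨1, 1⟩ : GaussianInt) * (∏ κ ∈ T, z κ) * w with hz₀
  set v := z₀ * star α with hv
  have hvn : Zsqrtd.norm v = 2 * D * m * A := by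
    rw [hv, Zsqrtd.norm_mul, hz0n, gaussA_norm_star, hα]
  -- the square root
  have hA0 : ((A : ℤ) : ZMod a) ≠ 0 := by
    intro h
    exact hnA ((ZMod.intCast_zmod_eq_zero_iff_dvd A a).1 h)
  have hlA : legendreSym a A ≠ 0 := by
    rw [Ne, legendreSym.eq_zero_iff]; exact hA0
  have hX0 : ((2 * (D : ℤ) * m : ℤ) : ZMod a) ≠ 0 := by
    intro h
    rw [← hleg] at hlA
    exact hlA ((legendreSym.eq_zero_iff a _).2 h)
  have hXA : legendreSym a (2 * D * m * A) = 1 := by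
    rw [legendreSym.mul, hleg, ← sq, legendreSym.sq_one a hA0]
  have hXA0 : ((2 * (D : ℤ) * m * A : ℤ) : ZMod a) ≠ 0 := by
    rw [Int.cast_mul]; exact mul_ne_zero hX0 hA0
  obtain ⟨r, hr⟩ := (legendreSym.eq_one_iff a hXA0).1 hXA
  obtain ⟨t, ht⟩ : ∃ t : ℤ, (t : ZMod a) = r := ⟨r.val, by simp⟩
  have htn : ¬ (a : ℤ) ∣ t := by
    intro h
    have : (t : ZMod a) = 0 := (ZMod.intCast_zmod_eq_zero_iff_dvd t a).2 h
    rw [ht] at this
    rw [this, mul_zero] at hr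
    exact hXA0 hr
  have htv : (a : ℤ) ∣ t ^ 2 - Zsqrtd.norm v := by
    rw [hvn, ← ZMod.intCast_zmod_eq_zero_iff_dvd]
    push_cast at hr ⊢
    rw [hr, ht]; ring
  obtain ⟨t', ht'1, ht'2⟩ := gaussD_correct a ha ha2 v t htn htv
  obtain ⟨κ₁, hκ₁, hκ₁d⟩ := hT2 _ ht'1
  have hzκ : ((a : ℤ) : GaussianInt) ∣ z κ₁ - ((t' : GaussianInt) + v) := by
    have := dvd_add (hz1 κ₁ hκ₁).2.2 hκ₁d
    rwa [sub_add_sub_cancel] at this
  -- the corrected product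
  set z' : GaussianInt → GaussianInt := fun κ => if κ = κ₁ then star (z κ) else z κ with hz'
  obtain ⟨hz1p, hz1n⟩ := hgen z' (by
    intro κ hκ
    rw [hz']
    simp only
    split_ifs with h
    · exact ⟨(hz1 κ hκ).1.conj, gaussA_norm_star _⟩
    · exact ⟨(hz1 κ hκ).1, rfl⟩)
  have hprod : (∏ κ ∈ T, z' κ) * z κ₁ = (∏ κ ∈ T, z κ) * star (z κ₁) := by
    rw [← Finset.mul_prod_erase T z' hκ₁, ← Finset.mul_prod_erase T z hκ₁]
    have h1 : z' κ₁ = star (z κ₁) := by rw [hz']; simp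
    have h2 : ∏ κ ∈ T.erase κ₁, z' κ = ∏ κ ∈ T.erase κ₁, z κ := by
      apply Finset.prod_congr rfl
      intro κ hκ
      rw [hz']
      simp only
      rw [if_neg (Finset.ne_of_mem_erase hκ)]
    rw [h1, h2]; ring
  set z₁ := (⟨1, 1⟩ : GaussianInt) * (∏ κ ∈ T, z' κ) * w with hz₁
  have hz10 : z₁ * z κ₁ = z₀ * star (z κ₁) := by
    rw [hz₁, hz₀]
    linear_combination ((⟨1, 1⟩ : GaussianInt) * w) * hprod
  have hd1 : ((a : ℤ) : GaussianInt) ∣ (z₁ * star α - (t' : GaussianInt)) * z κ₁ := by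
    have e : (z₁ * star α - (t' : GaussianInt)) * z κ₁ =
        v * star (z κ₁ - ((t' : GaussianInt) + v)) -
        (t' : GaussianInt) * (z κ₁ - ((t' : GaussianInt) + v)) +
        (v * star ((t' : GaussianInt) + v) - (t' : GaussianInt) * ((t' : GaussianInt) + v)) := by
      rw [star_sub, hv]
      linear_combination (star α) * hz10
    rw [e]
    exact dvd_add (dvd_sub (dvd_mul_of_dvd_right (gaussD_dvd_star hzκ) _)
      (dvd_mul_of_dvd_right hzκ _)) ht'2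
  have hd2 : ((a : ℤ) : GaussianInt) ∣
      ((Zsqrtd.norm (z κ₁) : ℤ) : GaussianInt) * (z₁ * star α - (t' : GaussianInt)) := by
    rw [gaussA_norm_cast]
    obtain ⟨s, hs⟩ := hd1
    exact ⟨s * star (z κ₁), by linear_combination (star (z κ₁)) * hs⟩
  have hd3 : (a : ℤ) ∣ (z₁ * star α).im := by
    rw [Zsqrtd.intCast_dvd] at hd2
    have h2 := hd2.2
    simp only [Zsqrtd.im_mul, Zsqrtd.re_intCast, Zsqrtd.im_intCast, zero_mul, add_zero,
      Zsqrtd.im_sub, sub_zero] at h2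
    have h3 := (hai.dvd_or_dvd h2).resolve_left (hzn κ₁ hκ₁)
    simpa [Zsqrtd.im_mul] using h3
  obtain ⟨x, y, hxy, hf⟩ := gaussA_lattice hα hβ hαβ hαp hz1p hd3
  exact ⟨x, y, hxy, by rw [hf, hz1n]⟩

/-- **Representation theorem.** -/
theorem gaussD_main (a : ℕ) [Fact a.Prime] (ha2 : a ≠ 2) (A B E : ℤ) (hA : 0 < A) (hE : 0 < E)
    (hdet : A * E - B ^ 2 = (a : ℤ) ^ 2) (hnd : ¬ ((a : ℤ) ∣ A ∧ (a : ℤ) ∣ E)) :
    ∃ ε : ℤ, (ε = 1 ∨ ε = -1) ∧ ∀ Z : ℕ, Z ≠ 0 →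
    ∃ D : ℕ, D ≠ 0 ∧ Nat.Coprime D Z ∧ Nat.Coprime D (2 * a) ∧
      (∀ p : ℕ, p.Prime → p ∣ D → p % 4 = 1) ∧
      ∀ m : ℕ, m ≠ 0 → (∀ p : ℕ, p.Prime → p ∣ m → p % 4 = 1) → Nat.Coprime m D →
        legendreSym a (2 * D * m) = ε →
        ∃ x y : ℤ, IsCoprime x y ∧ A * x ^ 2 + 2 * B * x * y + E * y ^ 2 = 2 * D * m := by
  have hpm : ∀ n : ℤ, ¬ (a : ℤ) ∣ n → legendreSym a n = 1 ∨ legendreSym a n = -1 := by
    intro n hn
    apply legendreSym.eq_one_or_neg_one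
    intro h
    exact hn ((ZMod.intCast_zmod_eq_zero_iff_dvd n a).1 h)
  by_cases hnA : (a : ℤ) ∣ A
  · have hnE : ¬ (a : ℤ) ∣ E := fun h => hnd ⟨hnA, h⟩
    refine ⟨legendreSym a E, hpm E hnE, ?_⟩
    intro Z hZ
    obtain ⟨D, h1, h2, h3, h4, h5⟩ := gaussD_main0 a ha2 E B A hE (by linarith) hnE Z hZ
    refine ⟨D, h1, h2, h3, h4, ?_⟩
    intro m hm hm4 hmD hleg
    obtain ⟨x, y, hxy, hf⟩ := h5 m hm hm4 hmD hleg
    exact ⟨y, x, hxy.symm, by linarith⟩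
  · exact ⟨legendreSym a A, hpm A hnA, fun Z hZ => gaussD_main0 a ha2 A B E hA hdet hnA Z hZ⟩

end Pool.Agent.Wd33b62g
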