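import Pool.Agent.W_d33b62_h49.IntForm
import Pool.Agent.W_d33b62_h49.GaussD

/-!
# The arithmetic of a prime component
-/

namespace Pool.Agent.Wd33b62g

/-- For a circle `C` of odd prime curvature `a`: the circles tangent to `C`. -/
theorem geometry_circle {D₀ : Fin 4 → Circ} (h₀ : IsDescartes D₀)
    (hint : IsIntegral (packing D₀)) (hprim : IsPrimitive (packing D₀)) {C : Circ}
    (hC : C ∈ packing D₀) (a : ℕ) (ha : a.Prime) (ha2 : a ≠ 2) (hCa : C.curv = a) :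
    ∃ ε : ℤ, (ε = 1 ∨ ε = -1) ∧ ∀ Z : ℕ, Z ≠ 0 →
    ∃ D : ℕ, D ≠ 0 ∧ Nat.Coprime D Z ∧ Nat.Coprime D (2 * a) ∧
      (∀ q : ℕ, q.Prime → q ∣ D → q % 4 = 1) ∧
      ∀ p m : ℕ, m ≠ 0 → (∀ q : ℕ, q.Prime → q ∣ m → q % 4 = 1) → Nat.Coprime m D →
        p + a = 2 * D * m → jacobiSym (p : ℤ) a = ε →
        ∃ C' ∈ packing D₀, Tangent C C' ∧ C'.curv = p := by
  haveI := Fact.mk ha
  obtain ⟨A, B, E, hA, hE, hdet, hnd, hform⟩ := intForm_exists h₀ hint hprim hC a ha ha2 hCa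
  obtain ⟨ε, hε, hrep⟩ := gaussD_main a ha2 A B E hA hE hdet hnd
  refine ⟨ε, hε, ?_⟩
  intro Z hZ
  obtain ⟨D, h1, h2, h3, h4, h5⟩ := hrep Z hZ
  refine ⟨D, h1, h2, h3, h4, ?_⟩
  intro p m hm hm4 hmD hpa hj
  have hleg : legendreSym a (2 * D * m) = ε := by
    rw [← hj, ← jacobiSym.legendreSym.to_jacobiSym]
    have e : (2 * (D : ℤ) * m) = (p : ℤ) + a := by exact_mod_cast hpa.symm
    rw [e, legendreSym.mod, Int.add_emod_right, ← legendreSym.mod]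
  obtain ⟨x, y, hxy, hf⟩ := h5 m hm hm4 hmD hleg
  obtain ⟨C', hT, hc⟩ := hform x y hxy
  refine ⟨C', hT.mem, hT.tangent h₀, ?_⟩
  rw [hc, hf]
  have e : (2 * (D : ℤ) * m) - a = (p : ℤ) := by
    have : ((p : ℤ) + a) = 2 * D * m := by exact_mod_cast hpa
    linarith
  rw [e]; simp

theorem geometry_mem {P : Set Circ} {C₀ C : Circ} (hC₀ : C₀ ∈ P) (hp : OddPrimeCurv C₀)
    (h : C ∈ component P C₀) : C ∈ P ∧ OddPrimeCurv C := by
  unfold component at h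
  rw [Set.mem_setOf_eq] at h
  rcases Relation.ReflTransGen.cases_tail h with h | ⟨b, -, hb⟩
  · rw [h]; exact ⟨hC₀, hp⟩
  · exact ⟨hb.2.1, hb.2.2.2.1⟩

/-- **The arithmetic closure property of a prime component.** -/
theorem geometry_main {D₀ : Fin 4 → Circ} (h₀ : IsDescartes D₀)
    (hint : IsIntegral (packing D₀)) (hprim : IsPrimitive (packing D₀)) {C₀ : Circ}
    (hC₀ : C₀ ∈ packing D₀) (hp : OddPrimeCurv C₀) (a : ℕ)
    (ha : a ∈ curvPrimes (component (packing D₀) C₀)) :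
    a.Prime ∧ a ≠ 2 ∧ ∃ ε : ℤ, (ε = 1 ∨ ε = -1) ∧ ∀ Z : ℕ, Z ≠ 0 →
    ∃ D : ℕ, D ≠ 0 ∧ Nat.Coprime D Z ∧ Nat.Coprime D (2 * a) ∧
      (∀ q : ℕ, q.Prime → q ∣ D → q % 4 = 1) ∧
      ∀ p m : ℕ, p.Prime → m ≠ 0 → (∀ q : ℕ, q.Prime → q ∣ m → q % 4 = 1) → Nat.Coprime m D →
        p + a = 2 * D * m → jacobiSym (p : ℤ) a = ε →
        p ∈ curvPrimes (component (packing D₀) C₀) := by
  obtain ⟨hap, C, hCK, hCa⟩ := ha
  obtain ⟨hCP, hCo⟩ := geometry_mem hC₀ hp hCK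
  have ha2 : a ≠ 2 := by
    obtain ⟨q, hq, hq2, hqc⟩ := hCo
    rw [hCa] at hqc
    have : a = q := by exact_mod_cast hqc
    rw [this]; exact hq2
  refine ⟨hap, ha2, ?_⟩
  obtain ⟨ε, hε, hrep⟩ := geometry_circle h₀ hint hprim hCP a hap ha2 hCa
  refine ⟨ε, hε, ?_⟩
  intro Z hZ
  obtain ⟨D, h1, h2, h3, h4, h5⟩ := hrep Z hZ
  refine ⟨D, h1, h2, h3, h4, ?_⟩
  intro p m hpp hm hm4 hmD hpa hj
  obtain ⟨C', hC', hT, hc⟩ := h5 p m hm hm4 hmD hpa hj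
  have hp2 : p ≠ 2 := by
    rintro rfl
    have h6 : a % 2 = 1 := hap.eq_two_or_odd.resolve_left ha2
    have h7 : (2 + a) % 2 = 0 := by rw [hpa, mul_assoc]; exact Nat.mul_mod_right 2 _
    omega
  refine ⟨hpp, C', ?_, hc⟩
  exact Relation.ReflTransGen.tail hCK ⟨hCP, hC', hCo, ⟨p, hpp, hp2, hc⟩, hT⟩

/-- A prime component contains its base circle. -/
theorem geometry_nonempty {P : Set Circ} {C₀ : Circ} (hp : OddPrimeCurv C₀) :
    (curvPrimes (component P C₀)).Nonempty := by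
  obtain ⟨p, hpp, -, hc⟩ := hp
  exact ⟨p, hpp, C₀, Relation.ReflTransGen.refl, hc⟩

end Pool.Agent.Wd33b62g
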