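import Pool.Agent.W_d33b62_h49.Defs

/-!
# Linear algebra of Descartes configurations
-/

namespace Pool.Agent.Wd33b62g

open Matrix

theorem ip_comm (C C' : Circ) : ip C C' = ip C' C := by unfold ip; ring

theorem ip_self (C : Circ) : ip C C = 1 := by
  have := C.norm_eq
  unfold ip; linarith

theorem Tangent.symm {C C' : Circ} (h : Tangent C C') : Tangent C' C := by
  unfold Tangent at *; rw [ip_comm]; exact h

theorem lorentz_gram (D : Fin 4 → Circ) (h : ∀ i j, i ≠ j → Tangent (D i) (D j)) (i j : Fin 4) :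
    ip (D i) (D j) = if i = j then 1 else -1 := by
  split_ifs with hij
  · rw [hij]; exact ip_self _
  · exact h i j hij

noncomputable def lorV (D : Fin 4 → Circ) : Matrix (Fin 4) (Fin 4) ℝ :=
  Matrix.of fun i => ![(D i).curv, (D i).cocurv, (D i).x, (D i).y]

noncomputable def lorQ : Matrix (Fin 4) (Fin 4) ℝ :=
  !![0, -1/2, 0, 0; -1/2, 0, 0, 0; 0, 0, 1, 0; 0, 0, 0, 1]

noncomputable def lorQ' : Matrix (Fin 4) (Fin 4) ℝ :=
  !![0, -2, 0, 0; -2, 0, 0, 0; 0, 0, 1, 0; 0, 0, 0, 1]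

noncomputable def lorG : Matrix (Fin 4) (Fin 4) ℝ :=
  !![1, -1, -1, -1; -1, 1, -1, -1; -1, -1, 1, -1; -1, -1, -1, 1]

noncomputable def lorG' : Matrix (Fin 4) (Fin 4) ℝ :=
  !![1/4, -1/4, -1/4, -1/4; -1/4, 1/4, -1/4, -1/4; -1/4, -1/4, 1/4, -1/4; -1/4, -1/4, -1/4, 1/4]

theorem lorQ_mul : lorQ' * lorQ = 1 := by
  ext i j; fin_cases i <;> fin_cases j <;>
    simp [lorQ, lorQ', Matrix.mul_apply, Fin.sum_univ_four, Matrix.one_apply] <;> norm_num

theorem lorG_mul : lorG * lorG' = 1 := by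
  ext i j; fin_cases i <;> fin_cases j <;>
    simp [lorG, lorG', Matrix.mul_apply, Fin.sum_univ_four, Matrix.one_apply] <;> norm_num

theorem lorV_gram (D : Fin 4 → Circ) (h : ∀ i j, i ≠ j → Tangent (D i) (D j)) :
    lorV D * lorQ * (lorV D)ᵀ = lorG := by
  ext i j
  have e : (lorV D * lorQ * (lorV D)ᵀ) i j = ip (D i) (D j) := by
    simp [lorV, lorQ, Matrix.mul_apply, Fin.sum_univ_four, ip]
    ring
  rw [e, lorentz_gram D h]
  fin_cases i <;> fin_cases j <;> simp [lorG]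

theorem lorV_dual (D : Fin 4 → Circ) (h : ∀ i j, i ≠ j → Tangent (D i) (D j)) :
    (lorV D)ᵀ * lorG' * (lorV D) = lorQ' := by
  have h1 := lorV_gram D h
  have h2 : lorV D * (lorQ * (lorV D)ᵀ * lorG') = 1 := by
    rw [← Matrix.mul_assoc, ← Matrix.mul_assoc, h1, lorG_mul]
  have h3 : (lorQ * (lorV D)ᵀ * lorG') * lorV D = 1 := mul_eq_one_comm.1 h2
  have h4 : lorQ' * ((lorQ * (lorV D)ᵀ * lorG') * lorV D) = lorQ' := by rw [h3, Matrix.mul_one]
  rw [← h4]
  simp only [← Matrix.mul_assoc, lorQ_mul, Matrix.one_mul]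

/-- The ten dual relations. -/
theorem lor_rel (D : Fin 4 → Circ) (h : ∀ i j, i ≠ j → Tangent (D i) (D j)) :
    (∑ i, (D i).curv) ^ 2 = 2 * ∑ i, (D i).curv ^ 2 ∧
    (∑ i, (D i).cocurv) ^ 2 = 2 * ∑ i, (D i).cocurv ^ 2 ∧
    (∑ i, (D i).x) ^ 2 = 2 * (∑ i, (D i).x ^ 2) - 4 ∧
    (∑ i, (D i).y) ^ 2 = 2 * (∑ i, (D i).y ^ 2) - 4 ∧
    (∑ i, (D i).curv) * (∑ i, (D i).cocurv) = 2 * (∑ i, (D i).curv * (D i).cocurv) + 8 ∧
    (∑ i, (D i).curv) * (∑ i, (D i).x) = 2 * (∑ i, (D i).curv * (D i).x) ∧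
    (∑ i, (D i).curv) * (∑ i, (D i).y) = 2 * (∑ i, (D i).curv * (D i).y) ∧
    (∑ i, (D i).cocurv) * (∑ i, (D i).x) = 2 * (∑ i, (D i).cocurv * (D i).x) ∧
    (∑ i, (D i).cocurv) * (∑ i, (D i).y) = 2 * (∑ i, (D i).cocurv * (D i).y) ∧
    (∑ i, (D i).x) * (∑ i, (D i).y) = 2 * (∑ i, (D i).x * (D i).y) := by
  have h0 := lorV_dual D h
  have e00 := congrFun (congrFun h0 0) 0
  have e11 := congrFun (congrFun h0 1) 1
  have e22 := congrFun (congrFun h0 2) 2
  have e33 := congrFun (congrFun h0 3) 3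
  have e01 := congrFun (congrFun h0 0) 1
  have e02 := congrFun (congrFun h0 0) 2
  have e03 := congrFun (congrFun h0 0) 3
  have e12 := congrFun (congrFun h0 1) 2
  have e13 := congrFun (congrFun h0 1) 3
  have e23 := congrFun (congrFun h0 2) 3
  simp [lorV, lorG', lorQ', Matrix.mul_apply, Fin.sum_univ_four] at e00 e11 e22 e33 e01 e02 e03 e12 e13 e23
  simp only [Fin.sum_univ_four]
  refine ⟨?_, ?_, ?_, ?_, ?_, ?_, ?_, ?_, ?_, ?_⟩
  · linear_combination (-4) * e00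
  · linear_combination (-4) * e11
  · linear_combination (-4) * e22
  · linear_combination (-4) * e33
  · linear_combination (-4) * e01
  · linear_combination (-4) * e02
  · linear_combination (-4) * e03
  · linear_combination (-4) * e12
  · linear_combination (-4) * e13
  · linear_combination (-4) * e23

end Pool.Agent.Wd33b62g
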