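import Pool.Agent.W_d33b62_h49.Lorentz

/-!
# Orientation, disjoint interiors, and the swap
-/

namespace Pool.Agent.Wd33b62g

/-- Pairwise tangent. -/
def Tan4 (D : Fin 4 → Circ) : Prop := ∀ i j, i ≠ j → Tangent (D i) (D j)

theorem IsDescartes.tan4 {D : Fin 4 → Circ} (h : IsDescartes D) : Tan4 D := fun i j hij => (h i j hij).1

theorem Tan4.comp {D : Fin 4 → Circ} (h : Tan4 D) (σ : Equiv.Perm (Fin 4)) :
    Tan4 (fun j => D (σ j)) := fun i j hij => h _ _ (fun e => hij (σ.injective e))

/-- The sum of the four vectors has norm `-8`. -/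
theorem swap_sum_norm {D : Fin 4 → Circ} (h : Tan4 D) :
    (∑ i, (D i).curv) * (∑ i, (D i).cocurv) = (∑ i, (D i).x) ^ 2 + (∑ i, (D i).y) ^ 2 + 8 := by
  have e0 := (D 0).norm_eq
  have e1 := (D 1).norm_eq
  have e2 := (D 2).norm_eq
  have e3 := (D 3).norm_eq
  have t01 := h 0 1 (by decide)
  have t02 := h 0 2 (by decide)
  have t03 := h 0 3 (by decide)
  have t12 := h 1 2 (by decide)
  have t13 := h 1 3 (by decide)
  have t23 := h 2 3 (by decide)
  unfold Tangent ip at t01 t02 t03 t12 t13 t23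
  simp only [Fin.sum_univ_four]
  linear_combination (-1) * e0 - e1 - e2 - e3 - 2 * t01 - 2 * t02 - 2 * t03 - 2 * t12 - 2 * t13 -
    2 * t23

theorem swap_sum_ne {D : Fin 4 → Circ} (h : Tan4 D) : ∑ i, (D i).curv ≠ 0 := by
  intro h0
  have h1 := swap_sum_norm h
  rw [h0, zero_mul] at h1
  nlinarith [sq_nonneg (∑ i, (D i).x), sq_nonneg (∑ i, (D i).y)]

/-- The inner product of the sum with one of the vectors is `-2`. -/
theorem swap_sum_ip {D : Fin 4 → Circ} (h : Tan4 D) (i : Fin 4) :
    (∑ j, (D j).x) * (D i).x + (∑ j, (D j).y) * (D i).y -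
      ((∑ j, (D j).curv) * (D i).cocurv + (∑ j, (D j).cocurv) * (D i).curv) / 2 = -2 := by
  have e : (∑ j, (D j).x) * (D i).x + (∑ j, (D j).y) * (D i).y -
      ((∑ j, (D j).curv) * (D i).cocurv + (∑ j, (D j).cocurv) * (D i).curv) / 2 =
      ip (D 0) (D i) + ip (D 1) (D i) + ip (D 2) (D i) + ip (D 3) (D i) := by
    simp only [Fin.sum_univ_four, ip]; ring
  rw [e, lorentz_gram D h, lorentz_gram D h, lorentz_gram D h, lorentz_gram D h]
  have hi : ∀ i : Fin 4, i = 0 ∨ i = 1 ∨ i = 2 ∨ i = 3 := by decide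
  rcases hi i with rfl | rfl | rfl | rfl <;> norm_num [Fin.ext_iff]

/-- A timelike vector with positive first coordinate and a lightlike vector. -/
theorem swap_future {s s' X Y l l' U V : ℝ} (hs : 0 < s) (h1 : s * s' = X ^ 2 + Y ^ 2 + 8)
    (h2 : l * l' = U ^ 2 + V ^ 2) (h3 : X * U + Y * V - (s * l' + s' * l) / 2 = -4) :
    0 ≤ l ∧ 0 ≤ l' := by
  have hs' : 0 < s' := by
    by_contra hc
    push Not at hc
    nlinarith [mul_nonneg hs.le (neg_nonneg.2 hc), sq_nonneg X, sq_nonneg Y]
  by_contra hc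
  have hll : 0 ≤ l * l' := by rw [h2]; positivity
  have hP : s * l' + s' * l < 0 := by
    rcases lt_or_ge l 0 with hl | hl
    · have hl' : l' ≤ 0 := by
        by_contra h0
        push Not at h0
        nlinarith
      nlinarith [mul_nonneg hs.le (neg_nonneg.2 hl'), mul_pos hs' (neg_pos.2 hl)]
    · have hl' : l' < 0 := by
        by_contra h0
        push Not at h0
        exact hc ⟨hl, h0⟩
      have hl0 : l = 0 := by
        by_contra h0
        have : 0 < l := lt_of_le_of_ne hl (Ne.symm h0)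
        nlinarith
      rw [hl0]
      nlinarith [mul_pos hs (neg_pos.2 hl')]
  have hCS : (X * U + Y * V) ^ 2 ≤ (X ^ 2 + Y ^ 2) * (U ^ 2 + V ^ 2) := by
    nlinarith [sq_nonneg (X * V - Y * U)]
  have hP2 : X * U + Y * V = (s * l' + s' * l) / 2 - 4 := by linarith
  have hXY : X ^ 2 + Y ^ 2 = s * s' - 8 := by linarith
  rw [hP2, hXY, ← h2] at hCS
  have h5 : (s * s' - 8) * (l * l') ≤ s * s' * (l * l') := by nlinarith
  have h6 : s * s' * (l * l') ≤ ((s * l' + s' * l) / 2) ^ 2 := by
    nlinarith [sq_nonneg (s * l' - s' * l)]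
  nlinarith

theorem swap_pair_nonneg {D : Fin 4 → Circ} (h : Tan4 D) (hpos : 0 < ∑ i, (D i).curv)
    {i j : Fin 4} (hij : i ≠ j) :
    0 ≤ (D i).curv + (D j).curv ∧ 0 ≤ (D i).cocurv + (D j).cocurv := by
  have e1 := swap_sum_norm h
  have e2 := swap_sum_ip h i
  have e3 := swap_sum_ip h j
  have ei := (D i).norm_eq
  have ej := (D j).norm_eq
  have et := h i j hij
  unfold Tangent ip at et
  refine swap_future (s := ∑ i, (D i).curv) (s' := ∑ i, (D i).cocurv) (X := ∑ i, (D i).x)
    (Y := ∑ i, (D i).y) (U := (D i).x + (D j).x) (V := (D i).y + (D j).y) hpos e1 ?_ ?_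
  · linear_combination (-1) * ei - ej - 2 * et
  · linear_combination e2 + e3

theorem swap_disjoint {D : Fin 4 → Circ} (h : Tan4 D) (hpos : 0 < ∑ i, (D i).curv)
    {i j : Fin 4} (hij : i ≠ j) : Disjoint (D i).interior (D j).interior := by
  obtain ⟨hl, hl'⟩ := swap_pair_nonneg h hpos hij
  rw [Set.disjoint_left]
  intro z hz hz'
  simp only [Circ.interior, Set.mem_setOf_eq] at hz hz'
  have ei := (D i).norm_eq
  have ej := (D j).norm_eq
  have et := h i j hij
  unfold Tangent ip at et
  have h2 : ((D i).curv + (D j).curv) * ((D i).cocurv + (D j).cocurv) =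
      ((D i).x + (D j).x) ^ 2 + ((D i).y + (D j).y) ^ 2 := by
    linear_combination (-1) * ei - ej - 2 * et
  set l := (D i).curv + (D j).curv with hldef
  set l' := (D i).cocurv + (D j).cocurv with hl'def
  set U := (D i).x + (D j).x with hU
  set V := (D i).y + (D j).y with hV
  have hF : l * (z.1 ^ 2 + z.2 ^ 2) - 2 * (U * z.1 + V * z.2) + l' < 0 := by
    rw [hldef, hl'def, hU, hV]; nlinarith
  rcases hl.eq_or_lt with h0 | h0
  · rw [← h0, zero_mul] at h2
    have hU0 : U = 0 := by nlinarith [sq_nonneg U, sq_nonneg V]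
    have hV0 : V = 0 := by nlinarith [sq_nonneg U, sq_nonneg V]
    rw [← h0, hU0, hV0] at hF
    linarith
  · have : l * (l * (z.1 ^ 2 + z.2 ^ 2) - 2 * (U * z.1 + V * z.2) + l') =
        (l * z.1 - U) ^ 2 + (l * z.2 - V) ^ 2 := by
      linear_combination h2
    nlinarith [sq_nonneg (l * z.1 - U), sq_nonneg (l * z.2 - V),
      mul_neg_of_pos_of_neg h0 hF]

/-- At every point of the plane the sum of two of the four functions has the sign of the
orientation. -/
theorem swap_pos_of_disjoint {D : Fin 4 → Circ} (h : IsDescartes D) : 0 < ∑ i, (D i).curv := by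
  have ht := h.tan4
  by_contra hc
  have hne := swap_sum_ne ht
  have hneg : ∑ i, (D i).curv < 0 := lt_of_le_of_ne (not_lt.1 hc) hne
  -- the negated configuration
  have hpair : ∀ i j, i ≠ j → (D i).curv + (D j).curv ≤ 0 ∧ (D i).cocurv + (D j).cocurv ≤ 0 := by
    intro i j hij
    let D' : Fin 4 → Circ := fun k => ⟨-(D k).curv, -(D k).cocurv, -(D k).x, -(D k).y, by
      have := (D k).norm_eq; linarith⟩
    have hD' : Tan4 D' := by
      intro a b hab
      have := ht a b hab
      unfold Tangent ip at this ⊢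
      simp only [D']
      linarith
    have hp : 0 < ∑ k, (D' k).curv := by
      simp only [D', Finset.sum_neg_distrib]; linarith
    have := swap_pair_nonneg hD' hp hij
    simp only [D'] at this
    constructor <;> linarith [this.1, this.2]
  have hF : ∀ i j, i ≠ j → ∀ z1 z2 : ℝ,
      ((D i).curv * (z1 ^ 2 + z2 ^ 2) - 2 * ((D i).x * z1 + (D i).y * z2) + (D i).cocurv) +
      ((D j).curv * (z1 ^ 2 + z2 ^ 2) - 2 * ((D j).x * z1 + (D j).y * z2) + (D j).cocurv) ≤ 0 := by
    intro i j hij z1 z2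
    obtain ⟨hl, hl'⟩ := hpair i j hij
    have ei := (D i).norm_eq
    have ej := (D j).norm_eq
    have et := ht i j hij
    unfold Tangent ip at et
    have h2 : ((D i).curv + (D j).curv) * ((D i).cocurv + (D j).cocurv) =
        ((D i).x + (D j).x) ^ 2 + ((D i).y + (D j).y) ^ 2 := by
      linear_combination (-1) * ei - ej - 2 * et
    set l := (D i).curv + (D j).curv with hldef
    set l' := (D i).cocurv + (D j).cocurv with hl'def
    set U := (D i).x + (D j).x with hU
    set V := (D i).y + (D j).y with hV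
    have e0 : ((D i).curv * (z1 ^ 2 + z2 ^ 2) - 2 * ((D i).x * z1 + (D i).y * z2) + (D i).cocurv) +
      ((D j).curv * (z1 ^ 2 + z2 ^ 2) - 2 * ((D j).x * z1 + (D j).y * z2) + (D j).cocurv) =
      l * (z1 ^ 2 + z2 ^ 2) - 2 * (U * z1 + V * z2) + l' := by
      rw [hldef, hl'def, hU, hV]; ring
    rw [e0]
    rcases hl.eq_or_lt with h0 | h0
    · rw [h0, zero_mul] at h2
      have hU0 : U = 0 := by nlinarith [sq_nonneg U, sq_nonneg V]
      have hV0 : V = 0 := by nlinarith [sq_nonneg U, sq_nonneg V]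
      rw [h0, hU0, hV0]
      linarith
    · have h3 : l * (l * (z1 ^ 2 + z2 ^ 2) - 2 * (U * z1 + V * z2) + l') =
          (l * z1 - U) ^ 2 + (l * z2 - V) ^ 2 := by
        linear_combination h2
      by_contra hcc
      push Not at hcc
      nlinarith [sq_nonneg (l * z1 - U), sq_nonneg (l * z2 - V), mul_neg_of_neg_of_pos h0 hcc]
  -- some circle contains the origin in its interior
  have hS := swap_sum_norm ht
  have hS' : ∑ i, (D i).cocurv < 0 := by
    by_contra hcc
    push Not at hcc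
    nlinarith [sq_nonneg (∑ i, (D i).x), sq_nonneg (∑ i, (D i).y),
      mul_nonneg hcc (neg_nonneg.2 hneg.le)]
  obtain ⟨i, -, hi⟩ := Finset.exists_lt_of_sum_lt (s := Finset.univ)
    (f := fun i => (D i).cocurv) (g := fun _ => (0 : ℝ)) (by simpa using hS')
  have hex : ∀ i : Fin 4, ∃ j k : Fin 4, j ≠ i ∧ k ≠ i ∧ j ≠ k := by decide
  obtain ⟨j, k, hji, hki, hjk⟩ := hex i
  -- near the origin, `D j` vanishes
  have hvan : ∀ z1 z2 : ℝ, (D i).curv * (z1 ^ 2 + z2 ^ 2) - 2 * ((D i).x * z1 + (D i).y * z2) +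
      (D i).cocurv < 0 →
      (D j).curv * (z1 ^ 2 + z2 ^ 2) - 2 * ((D j).x * z1 + (D j).y * z2) + (D j).cocurv = 0 := by
    intro z1 z2 hz
    have hj : 0 ≤ (D j).curv * (z1 ^ 2 + z2 ^ 2) - 2 * ((D j).x * z1 + (D j).y * z2) +
        (D j).cocurv := by
      by_contra hcc
      push Not at hcc
      exact (Set.disjoint_left.1 (h i j hji.symm).2) (show ((z1, z2) : ℝ × ℝ) ∈ (D i).interior from hz) hcc
    have hk : 0 ≤ (D k).curv * (z1 ^ 2 + z2 ^ 2) - 2 * ((D k).x * z1 + (D k).y * z2) +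
        (D k).cocurv := by
      by_contra hcc
      push Not at hcc
      exact (Set.disjoint_left.1 (h i k hki.symm).2) (show ((z1, z2) : ℝ × ℝ) ∈ (D i).interior from hz) hcc
    have := hF j k hjk z1 z2
    linarith
  -- a small radius
  set M : ℝ := |(D i).curv| + 2 * |(D i).x| + 2 * |(D i).y| + 1 with hM
  have hM1 : 1 ≤ M := by
    rw [hM]; linarith [abs_nonneg (D i).curv, abs_nonneg (D i).x, abs_nonneg (D i).y]
  set ε : ℝ := min 1 (-(D i).cocurv / (2 * M)) with hε
  have hε0 : 0 < ε := by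
    rw [hε]; refine lt_min one_pos (div_pos (neg_pos.2 hi) (by linarith))
  have hε1 : ε ≤ 1 := min_le_left _ _
  have hεM : ε * M < -(D i).cocurv := by
    have : ε ≤ -(D i).cocurv / (2 * M) := min_le_right _ _
    have h1 : ε * M ≤ -(D i).cocurv / (2 * M) * M := by nlinarith
    have h2 : -(D i).cocurv / (2 * M) * M = -(D i).cocurv / 2 := by
      field_simp
    linarith
  have hb : (D i).curv * ε ^ 2 ≤ |(D i).curv| * ε := by
    have h1 : (D i).curv * ε ^ 2 ≤ |(D i).curv| * ε ^ 2 :=
      mul_le_mul_of_nonneg_right (le_abs_self _) (sq_nonneg _)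
    have h2 : |(D i).curv| * ε ^ 2 ≤ |(D i).curv| * ε := by
      apply mul_le_mul_of_nonneg_left _ (abs_nonneg _)
      nlinarith
    linarith
  have hx : |(D i).x * ε| = |(D i).x| * ε := by rw [abs_mul, abs_of_pos hε0]
  have hy : |(D i).y * ε| = |(D i).y| * ε := by rw [abs_mul, abs_of_pos hε0]
  have hbx : 0 ≤ |(D i).curv| * ε := by positivity
  have hxx : 0 ≤ |(D i).x| * ε := by positivity
  have hyy : 0 ≤ |(D i).y| * ε := by positivity
  have hεM' : |(D i).curv| * ε + 2 * (|(D i).x| * ε) + 2 * (|(D i).y| * ε) + ε <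
      -(D i).cocurv := by
    have : ε * M = |(D i).curv| * ε + 2 * (|(D i).x| * ε) + 2 * (|(D i).y| * ε) + ε := by
      rw [hM]; ring
    linarith
  have z0 := hvan 0 0 (by simpa using hi)
  have z1 := hvan ε 0 (by
    have := neg_abs_le ((D i).x * ε)
    rw [hx] at this
    nlinarith)
  have z2 := hvan (-ε) 0 (by
    have := le_abs_self ((D i).x * ε)
    rw [hx] at this
    nlinarith)
  have z3 := hvan 0 ε (by
    have := neg_abs_le ((D i).y * ε)
    rw [hy] at this
    nlinarith)
  have z4 := hvan 0 (-ε) (by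
    have := le_abs_self ((D i).y * ε)
    rw [hy] at this
    nlinarith)
  have c0 : (D j).cocurv = 0 := by simpa using z0
  have cb : (D j).curv = 0 := by
    have : (D j).curv * ε ^ 2 = 0 := by linear_combination (z1 + z2) / 2 - c0
    rcases mul_eq_zero.1 this with h0 | h0
    · exact h0
    · exact absurd h0 (by positivity)
  have cx : (D j).x = 0 := by
    have : (D j).x * ε = 0 := by linear_combination (z2 - z1) / 4
    rcases mul_eq_zero.1 this with h0 | h0
    · exact h0
    · exact absurd h0 hε0.ne'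
  have cy : (D j).y = 0 := by
    have : (D j).y * ε = 0 := by linear_combination (z4 - z3) / 4
    rcases mul_eq_zero.1 this with h0 | h0
    · exact h0
    · exact absurd h0 hε0.ne'
  have := (D j).norm_eq
  rw [cb, cx, cy] at this
  norm_num at this

theorem isDescartes_iff (D : Fin 4 → Circ) :
    IsDescartes D ↔ Tan4 D ∧ 0 < ∑ i, (D i).curv :=
  ⟨fun h => ⟨h.tan4, swap_pos_of_disjoint h⟩,
    fun h i j hij => ⟨h.1 i j hij, swap_disjoint h.1 h.2 hij⟩⟩

end Pool.Agent.Wd33b62g
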