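import Pool.Agent.W_d33b62_h49.Swap

/-!
# The swap: existence and the curvature of the new circle
-/

namespace Pool.Agent.Wd33b62g

/-- The new circle of the swap at `0`. -/
noncomputable def swapCirc (D : Fin 4 → Circ) (h : Tan4 D) : Circ where
  curv := 2 * ((D 1).curv + (D 2).curv + (D 3).curv) - (D 0).curv
  cocurv := 2 * ((D 1).cocurv + (D 2).cocurv + (D 3).cocurv) - (D 0).cocurv
  x := 2 * ((D 1).x + (D 2).x + (D 3).x) - (D 0).x
  y := 2 * ((D 1).y + (D 2).y + (D 3).y) - (D 0).y
  norm_eq := by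
    have e0 := (D 0).norm_eq
    have e1 := (D 1).norm_eq
    have e2 := (D 2).norm_eq
    have e3 := (D 3).norm_eq
    have t01 := h 0 1 (by decide)
    have t02 := h 0 2 (by decide)
    have t03 := h 0 3 (by decide)
    have t12 := h 1 2 (by decide)
    have t13 := h 1 3 (by decide)
    have t23 := h 2 3 (by decide)
    unfold Tangent ip at t01 t02 t03 t12 t13 t23
    linear_combination e0 + 4 * e1 + 4 * e2 + 4 * e3 - 4 * t01 - 4 * t02 - 4 * t03 + 8 * t12 +
      8 * t13 + 8 * t23

theorem swapCirc_tangent (D : Fin 4 → Circ) (h : Tan4 D) (j : Fin 4) (hj : j ≠ 0) :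
    Tangent (swapCirc D h) (D j) := by
  have e : ip (swapCirc D h) (D j) =
      2 * (ip (D 1) (D j) + ip (D 2) (D j) + ip (D 3) (D j)) - ip (D 0) (D j) := by
    simp only [ip, swapCirc]; ring
  unfold Tangent
  rw [e, lorentz_gram D h, lorentz_gram D h, lorentz_gram D h, lorentz_gram D h]
  have hi : ∀ i : Fin 4, i = 0 ∨ i = 1 ∨ i = 2 ∨ i = 3 := by decide
  rcases hi j with rfl | rfl | rfl | rfl
  · exact absurd rfl hj
  · norm_num [Fin.ext_iff]
  · norm_num [Fin.ext_iff]
  · norm_num [Fin.ext_iff]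

theorem swapCirc_ne (D : Fin 4 → Circ) (h : Tan4 D) : swapCirc D h ≠ D 0 := by
  intro h0
  have e : ip (swapCirc D h) (D 0) =
      2 * (ip (D 1) (D 0) + ip (D 2) (D 0) + ip (D 3) (D 0)) - ip (D 0) (D 0) := by
    simp only [ip, swapCirc]; ring
  rw [h0, lorentz_gram D h, lorentz_gram D h, lorentz_gram D h, lorentz_gram D h] at e
  norm_num [Fin.ext_iff] at e

theorem swapB_exists0 (D : Fin 4 → Circ) (h : IsDescartes D) :
    ∃ D' : Fin 4 → Circ, IsDescartes D' ∧ (∀ j, j ≠ 0 → D' j = D j) ∧ D' 0 ≠ D 0 ∧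
      (D' 0).curv = 2 * ((D 1).curv + (D 2).curv + (D 3).curv) - (D 0).curv := by
  have ht := h.tan4
  have hp := swap_pos_of_disjoint h
  refine ⟨Function.update D 0 (swapCirc D ht), ?_, ?_, ?_, ?_⟩
  · rw [isDescartes_iff]
    have ht' : Tan4 (Function.update D 0 (swapCirc D ht)) := by
      intro i j hij
      by_cases hi : i = 0
      · subst hi
        rw [Function.update_self, Function.update_of_ne (Ne.symm hij)]
        exact swapCirc_tangent D ht j (Ne.symm hij)
      · by_cases hj : j = 0
        · subst hj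
          rw [Function.update_self, Function.update_of_ne hi]
          exact (swapCirc_tangent D ht i hi).symm
        · rw [Function.update_of_ne hi, Function.update_of_ne hj]
          exact ht i j hij
    refine ⟨ht', ?_⟩
    have hne := swap_sum_ne ht'
    have hr := (lor_rel D ht).1
    simp only [Fin.sum_univ_four] at hr hp hne ⊢
    have u1 : Function.update D 0 (swapCirc D ht) 1 = D 1 := Function.update_of_ne (by decide) _ _
    have u2 : Function.update D 0 (swapCirc D ht) 2 = D 2 := Function.update_of_ne (by decide) _ _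
    have u3 : Function.update D 0 (swapCirc D ht) 3 = D 3 := Function.update_of_ne (by decide) _ _
    rw [Function.update_self, u1, u2, u3] at hne ⊢
    simp only [swapCirc] at hne ⊢
    set t := (D 1).curv + (D 2).curv + (D 3).curv with htdef
    set s := (D 0).curv + (D 1).curv + (D 2).curv + (D 3).curv with hsdef
    have hs : s = t + (D 0).curv := by rw [hsdef, htdef]; ring
    have e1 : 2 * t - (D 0).curv + (D 1).curv + (D 2).curv + (D 3).curv =
        3 * t - (D 0).curv := by rw [htdef]; ring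
    rw [e1] at hne ⊢
    have key : s * (3 * t - (D 0).curv) =
        2 * t ^ 2 + 2 * ((D 1).curv ^ 2 + (D 2).curv ^ 2 + (D 3).curv ^ 2) := by
      rw [hs] at hr ⊢
      linear_combination hr
    have hk : 0 ≤ s * (3 * t - (D 0).curv) := by rw [key]; positivity
    have h0 : 0 ≤ 3 * t - (D 0).curv := by
      by_contra hc
      push Not at hc
      nlinarith
    exact lt_of_le_of_ne h0 (Ne.symm hne)
  · intro j hj; exact Function.update_of_ne hj _ _
  · rw [Function.update_self]; exact swapCirc_ne D ht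
  · rw [Function.update_self]; rfl

theorem swapB_unique0 (D D' : Fin 4 → Circ) (h : Tan4 D) (h' : Tan4 D')
    (hj : ∀ j, j ≠ 0 → D' j = D j) (hne : D' 0 ≠ D 0) :
    (D' 0).curv = 2 * ((D 1).curv + (D 2).curv + (D 3).curv) - (D 0).curv := by
  obtain ⟨r1, r2, r3, r4, r5, r6, r7, r8, r9, r10⟩ := lor_rel D h
  obtain ⟨r1', r2', r3', r4', r5', r6', r7', r8', r9', r10'⟩ := lor_rel D' h'
  simp only [Fin.sum_univ_four] at r1 r5 r6 r7 r1' r5' r6' r7'
  rw [hj 1 (by decide), hj 2 (by decide), hj 3 (by decide)] at r1' r5' r6' r7'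
  set t := (D 1).curv + (D 2).curv + (D 3).curv with htdef
  have hprod : ((D' 0).curv - (D 0).curv) * ((D' 0).curv + (D 0).curv - 2 * t) = 0 := by
    rw [htdef]; linear_combination r1 - r1'
  rcases mul_eq_zero.1 hprod with h0 | h0
  · have hb : (D' 0).curv = (D 0).curv := by linarith
    by_cases hbt : (D 0).curv = t
    · rw [hb, hbt]; ring
    · exfalso
      apply hne
      have hd : t - (D 0).curv ≠ 0 := sub_ne_zero.2 (Ne.symm hbt)
      rw [hb] at r5' r6' r7'
      have hx : ((D' 0).x - (D 0).x) * (t - (D 0).curv) = 0 := by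
        rw [htdef]; linear_combination r6' - r6
      have hy : ((D' 0).y - (D 0).y) * (t - (D 0).curv) = 0 := by
        rw [htdef]; linear_combination r7' - r7
      have hc : ((D' 0).cocurv - (D 0).cocurv) * (t - (D 0).curv) = 0 := by
        rw [htdef]; linear_combination r5' - r5
      have hx' := (mul_eq_zero.1 hx).resolve_right hd
      have hy' := (mul_eq_zero.1 hy).resolve_right hd
      have hc' := (mul_eq_zero.1 hc).resolve_right hd
      ext
      · exact hb
      · linarith
      · linarith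
      · linarith
  · linarith

/-- Reduction of a general position to position `0`. -/
theorem swapB_perm (i : Fin 4) : ∃ σ : Equiv.Perm (Fin 4), σ 0 = i := ⟨Equiv.swap 0 i, by simp⟩

theorem swapB_isDescartes_comp {D : Fin 4 → Circ} (h : IsDescartes D)
    (σ : Equiv.Perm (Fin 4)) : IsDescartes (fun j => D (σ j)) :=
  fun i j hij => h _ _ (fun e => hij (σ.injective e))

/-- Existence of the swap in a general position, with the curvature of the new circle. -/
theorem swapB_exists (D : Fin 4 → Circ) (h : IsDescartes D) (i : Fin 4) :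
    ∃ D' : Fin 4 → Circ, IsDescartes D' ∧ (∀ j, j ≠ i → D' j = D j) ∧ D' i ≠ D i ∧
      (D' i).curv = 2 * (∑ j, (D j).curv) - 3 * (D i).curv := by
  obtain ⟨σ, hσ⟩ := swapB_perm i
  obtain ⟨E, hE, hE1, hE2, hE3⟩ := swapB_exists0 _ (swapB_isDescartes_comp h σ)
  refine ⟨fun j => E (σ.symm j), swapB_isDescartes_comp hE σ.symm, ?_, ?_, ?_⟩
  · intro j hj
    have : σ.symm j ≠ 0 := by
      intro h0
      apply hj
      rw [← hσ, ← h0]; simp
    simp only
    rw [hE1 _ this]; simp
  · simp only
    rw [← hσ, Equiv.symm_apply_apply]; exact hE2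
  · simp only
    rw [← Equiv.sum_comp σ (fun j => (D j).curv), Fin.sum_univ_four]
    rw [← hσ, Equiv.symm_apply_apply, hE3]
    ring

/-- The curvature of the new circle in every swap. -/
theorem swapB_unique (D D' : Fin 4 → Circ) (h : Tan4 D) (h' : Tan4 D') (i : Fin 4)
    (hj : ∀ j, j ≠ i → D' j = D j) (hne : D' i ≠ D i) :
    (D' i).curv = 2 * (∑ j, (D j).curv) - 3 * (D i).curv := by
  obtain ⟨σ, hσ⟩ := swapB_perm i
  have := swapB_unique0 (fun j => D (σ j)) (fun j => D' (σ j)) (h.comp σ) (h'.comp σ)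
    (by
      intro j hj0
      apply hj
      rw [← hσ]
      exact fun e => hj0 (σ.injective e))
    (by rw [hσ]; exact hne)
  rw [← Equiv.sum_comp σ (fun j => (D j).curv), Fin.sum_univ_four]
  rw [hσ] at this ⊢
  rw [this]
  ring

theorem Gen.isDescartes {D₀ D : Fin 4 → Circ} (h₀ : IsDescartes D₀) (h : Gen D₀ D) :
    IsDescartes D := by
  induction h with
  | base => exact h₀
  | step i _ h' _ _ _ => exact h'

theorem Gen.swap {D₀ D : Fin 4 → Circ} (h₀ : IsDescartes D₀) (h : Gen D₀ D) (i : Fin 4) :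
    ∃ D', Gen D₀ D' ∧ (∀ j, j ≠ i → D' j = D j) ∧
      (D' i).curv = 2 * (∑ j, (D j).curv) - 3 * (D i).curv := by
  obtain ⟨D', h1, h2, h3, h4⟩ := swapB_exists D (h.isDescartes h₀) i
  exact ⟨D', Gen.step i h h1 h2 h3, h2, h4⟩

end Pool.Agent.Wd33b62g
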