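import Pool.Agent.W_d33b62_h49.SwapB

/-!
# The curvatures of the circles tangent to a fixed circle
-/

namespace Pool.Agent.Wd33b62g

/-- The quadratic form `A x^2 + 2 B x y + E y^2` on integer vectors. -/
noncomputable def qv (A B E : ℝ) (u : ℤ × ℤ) : ℝ :=
  A * (u.1 : ℝ) ^ 2 + 2 * B * (u.1 : ℝ) * (u.2 : ℝ) + E * (u.2 : ℝ) ^ 2

theorem qv_neg (A B E : ℝ) (u : ℤ × ℤ) : qv A B E (-u) = qv A B E u := by
  unfold qv; simp only [Prod.fst_neg, Prod.snd_neg]; push_cast; ring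

theorem qv_par (A B E : ℝ) (u v : ℤ × ℤ) :
    qv A B E (u + -v) = 2 * qv A B E u + 2 * qv A B E v - qv A B E (u + v) := by
  unfold qv; simp only [Prod.fst_add, Prod.snd_add, Prod.fst_neg, Prod.snd_neg]; push_cast; ring

/-- Configurations through `C` adapted to the pair of vectors `u, v`. -/
def TG (D₀ : Fin 4 → Circ) (C : Circ) (A B E : ℝ) (u v : ℤ × ℤ) : Prop :=
  ∃ D : Fin 4 → Circ, ∃ σ : Equiv.Perm (Fin 4), Gen D₀ D ∧ D (σ 0) = C ∧
    (D (σ 1)).curv = qv A B E u - C.curv ∧ (D (σ 2)).curv = qv A B E v - C.curv ∧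
    (D (σ 3)).curv = qv A B E (u + v) - C.curv

variable {D₀ : Fin 4 → Circ} {C : Circ} {A B E : ℝ}

theorem TG.symm {u v : ℤ × ℤ} (h : TG D₀ C A B E u v) : TG D₀ C A B E v u := by
  obtain ⟨D, σ, hg, h0, h1, h2, h3⟩ := h
  refine ⟨D, (Equiv.swap 1 2).trans σ, hg, ?_, ?_, ?_, ?_⟩
  · rw [Equiv.trans_apply, Equiv.swap_apply_of_ne_of_ne (by decide) (by decide)]; exact h0
  · rw [Equiv.trans_apply, Equiv.swap_apply_left]; exact h2
  · rw [Equiv.trans_apply, Equiv.swap_apply_right]; exact h1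
  · rw [Equiv.trans_apply, Equiv.swap_apply_of_ne_of_ne (by decide) (by decide), add_comm]
    exact h3

theorem TG.neg_right (h₀ : IsDescartes D₀) {u v : ℤ × ℤ} (h : TG D₀ C A B E u v) :
    TG D₀ C A B E u (-v) := by
  obtain ⟨D, σ, hg, h0, h1, h2, h3⟩ := h
  obtain ⟨D', hg', hD', hc⟩ := hg.swap h₀ (σ 3)
  refine ⟨D', σ, hg', ?_, ?_, ?_, ?_⟩
  · rw [hD' _ (fun e => absurd (σ.injective e) (by decide))]; exact h0
  · rw [hD' _ (fun e => absurd (σ.injective e) (by decide))]; exact h1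
  · rw [hD' _ (fun e => absurd (σ.injective e) (by decide)), qv_neg]; exact h2
  · rw [hc, ← Equiv.sum_comp σ (fun j => (D j).curv), Fin.sum_univ_four, h1, h2, h3, h0, qv_par]
    ring

theorem TG.rot {u v : ℤ × ℤ} (h : TG D₀ C A B E u v) : TG D₀ C A B E (u + v) (-v) := by
  obtain ⟨D, σ, hg, h0, h1, h2, h3⟩ := h
  refine ⟨D, (Equiv.swap 1 3).trans σ, hg, ?_, ?_, ?_, ?_⟩
  · rw [Equiv.trans_apply, Equiv.swap_apply_of_ne_of_ne (by decide) (by decide)]; exact h0
  · rw [Equiv.trans_apply, Equiv.swap_apply_left]; exact h3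
  · rw [Equiv.trans_apply, Equiv.swap_apply_of_ne_of_ne (by decide) (by decide), qv_neg]
    exact h2
  · rw [Equiv.trans_apply, Equiv.swap_apply_right, add_neg_cancel_right]; exact h1

theorem TG.add_left (h₀ : IsDescartes D₀) {u v : ℤ × ℤ} (h : TG D₀ C A B E u v) :
    TG D₀ C A B E (u + v) v := by
  have := h.rot.neg_right h₀
  rwa [neg_neg] at this

theorem TG.neg_left (h₀ : IsDescartes D₀) {u v : ℤ × ℤ} (h : TG D₀ C A B E u v) :
    TG D₀ C A B E (-u) v := (h.symm.neg_right h₀).symm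

theorem TG.add_right (h₀ : IsDescartes D₀) {u v : ℤ × ℤ} (h : TG D₀ C A B E u v) :
    TG D₀ C A B E u (u + v) := by
  have := (h.symm.add_left h₀).symm
  rwa [add_comm] at this

theorem TG.nat (h₀ : IsDescartes D₀) (n : ℕ) : ∀ (p q : ℕ) (u v : ℤ × ℤ), p + q ≤ n →
    Nat.Coprime p q → TG D₀ C A B E u v →
    ∃ w, TG D₀ C A B E ((p : ℤ) • u + (q : ℤ) • v) w := by
  induction n with
  | zero =>
    intro p q u v hn hc h
    have hp : p = 0 := by omega
    have hq : q = 0 := by omega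
    subst hp; subst hq
    simp at hc
  | succ n ih =>
    intro p q u v hn hc h
    rcases Nat.eq_zero_or_pos q with hq | hq
    · subst hq
      have hp : p = 1 := by simpa using hc
      subst hp
      exact ⟨v, by simpa using h⟩
    rcases Nat.eq_zero_or_pos p with hp | hp
    · subst hp
      have hq : q = 1 := by simpa using hc
      subst hq
      exact ⟨u, by simpa using h.symm⟩
    rcases le_total q p with hqp | hqp
    · have h1 := h.add_right h₀
      have hc' : Nat.Coprime (p - q) q := (Nat.coprime_sub_self_left hqp).2 hc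
      obtain ⟨w, hw⟩ := ih (p - q) q u (u + v) (by omega) hc' h1
      refine ⟨w, ?_⟩
      have e : ((p - q : ℕ) : ℤ) • u + (q : ℤ) • (u + v) = (p : ℤ) • u + (q : ℤ) • v := by
        rw [Nat.cast_sub hqp, sub_smul, smul_add]; abel
      rwa [e] at hw
    · have h1 := h.add_left h₀
      have hc' : Nat.Coprime p (q - p) := (Nat.coprime_sub_self_right hqp).2 hc
      obtain ⟨w, hw⟩ := ih p (q - p) (u + v) v (by omega) hc' h1
      refine ⟨w, ?_⟩
      have e : (p : ℤ) • (u + v) + ((q - p : ℕ) : ℤ) • v = (p : ℤ) • u + (q : ℤ) • v := by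
        rw [Nat.cast_sub hqp, sub_smul, smul_add]; abel
      rwa [e] at hw

theorem TG.int (h₀ : IsDescartes D₀) (p q : ℤ) (hpq : IsCoprime p q) {u v : ℤ × ℤ}
    (h : TG D₀ C A B E u v) : ∃ w, TG D₀ C A B E (p • u + q • v) w := by
  have hc : Nat.Coprime p.natAbs q.natAbs := Int.isCoprime_iff_gcd_eq_one.1 hpq
  rcases Int.natAbs_eq p with hp | hp <;> rcases Int.natAbs_eq q with hq | hq
  · obtain ⟨w, hw⟩ := TG.nat h₀ _ p.natAbs q.natAbs u v le_rfl hc h
    rw [← hp, ← hq] at hw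
    exact ⟨w, hw⟩
  · obtain ⟨w, hw⟩ := TG.nat h₀ _ p.natAbs q.natAbs u (-v) le_rfl hc (h.neg_right h₀)
    refine ⟨w, ?_⟩
    rw [← hp] at hw
    have e : q • v = (q.natAbs : ℤ) • (-v) := by rw [hq, neg_smul, smul_neg, Int.natAbs_neg, Int.natAbs_natCast]
    rwa [e]
  · obtain ⟨w, hw⟩ := TG.nat h₀ _ p.natAbs q.natAbs (-u) v le_rfl hc (h.neg_left h₀)
    refine ⟨w, ?_⟩
    rw [← hq] at hw
    have e : p • u = (p.natAbs : ℤ) • (-u) := by rw [hp, neg_smul, smul_neg, Int.natAbs_neg, Int.natAbs_natCast]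
    rwa [e]
  · obtain ⟨w, hw⟩ := TG.nat h₀ _ p.natAbs q.natAbs (-u) (-v) le_rfl hc
      ((h.neg_left h₀).neg_right h₀)
    refine ⟨w, ?_⟩
    have e : p • u = (p.natAbs : ℤ) • (-u) := by rw [hp, neg_smul, smul_neg, Int.natAbs_neg, Int.natAbs_natCast]
    have e' : q • v = (q.natAbs : ℤ) • (-v) := by rw [hq, neg_smul, smul_neg, Int.natAbs_neg, Int.natAbs_natCast]
    rwa [e, e']

/-- Two circles of one configuration of the packing. -/
def Nbr (D₀ : Fin 4 → Circ) (C C' : Circ) : Prop :=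
  ∃ D : Fin 4 → Circ, Gen D₀ D ∧ ∃ i j, i ≠ j ∧ D i = C ∧ D j = C'

theorem Nbr.tangent (h₀ : IsDescartes D₀) {C C' : Circ} (h : Nbr D₀ C C') : Tangent C C' := by
  obtain ⟨D, hg, i, j, hij, rfl, rfl⟩ := h
  exact ((hg.isDescartes h₀) i j hij).1

theorem Nbr.mem {C C' : Circ} (h : Nbr D₀ C C') : C' ∈ packing D₀ := by
  obtain ⟨D, hg, i, j, hij, rfl, rfl⟩ := h
  exact ⟨D, hg, j, rfl⟩

/-- **The circles tangent to `C`.**  Let `D` be a configuration of the packing with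
`D (σ 0) = C`, and `a, b, c, d` the curvatures of `C, D (σ 1), D (σ 2), D (σ 3)`.  For all coprime
`x, y` there is a circle of the packing tangent to `C` of curvature
`(a + b) x^2 + (a + b + c - d) x y + (a + c) y^2 - a`. -/
theorem tangents_curv (h₀ : IsDescartes D₀) {D : Fin 4 → Circ} (hD : Gen D₀ D)
    (σ : Equiv.Perm (Fin 4)) (x y : ℤ) (hxy : IsCoprime x y) :
    ∃ C', Nbr D₀ (D (σ 0)) C' ∧ C'.curv =
      qv ((D (σ 0)).curv + (D (σ 1)).curv)
        (((D (σ 0)).curv + (D (σ 1)).curv + (D (σ 2)).curv - (D (σ 3)).curv) / 2)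
        ((D (σ 0)).curv + (D (σ 2)).curv) (x, y) - (D (σ 0)).curv := by
  have hbase : TG D₀ (D (σ 0)) ((D (σ 0)).curv + (D (σ 1)).curv)
      (((D (σ 0)).curv + (D (σ 1)).curv + (D (σ 2)).curv - (D (σ 3)).curv) / 2)
      ((D (σ 0)).curv + (D (σ 2)).curv) (1, 0) (0, -1) := by
    refine ⟨D, σ, hD, rfl, ?_, ?_, ?_⟩
    · unfold qv; push_cast; ring
    · unfold qv; push_cast; ring
    · unfold qv; simp only [Prod.fst_add, Prod.snd_add]; push_cast; ring
  have hxy' : IsCoprime x (-y) := hxy.neg_right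
  obtain ⟨w, hw⟩ := TG.int h₀ x (-y) hxy' hbase
  have e : x • ((1, 0) : ℤ × ℤ) + (-y) • ((0, -1) : ℤ × ℤ) = (x, y) := by
    ext <;> simp
  rw [e] at hw
  obtain ⟨D', σ', hg, h0, h1, -, -⟩ := hw
  exact ⟨D' (σ' 1), ⟨D', hg, σ' 0, σ' 1, fun e => absurd (σ'.injective e) (by decide), h0, rfl⟩, h1⟩

end Pool.Agent.Wd33b62g
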